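import Mathlib

namespace Pool.Agent.H33G

open Complex

/-- A straight line of the Euclidean plane `ℂ`. -/
def IsLine (l : Set ℂ) : Prop :=
  ∃ a b : ℂ, b ≠ 0 ∧ l = {z | ∃ t : ℝ, z = a + (t : ℂ) * b}

/-- A geometric `(21_4)` configuration in the Euclidean plane `ℂ`: `P` has 21 points, `L` has
21 lines, each point of `P` lies on exactly four lines of `L`, each line of `L` contains exactly
four points of `P`. -/
structure IsConfig (P : Set ℂ) (L : Set (Set ℂ)) : Prop where
  card_points : P.ncard = 21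
  card_lines : L.ncard = 21
  line : ∀ l ∈ L, IsLine l
  four_lines : ∀ p ∈ P, {l | l ∈ L ∧ p ∈ l}.ncard = 4
  four_points : ∀ l ∈ L, {p | p ∈ P ∧ p ∈ l}.ncard = 4

end Pool.Agent.H33G
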