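import Mathlib

namespace Pool.Agent.H33G

open Complex

noncomputable def xi : ℂ := exp (2 * Real.pi * I / (7 : ℕ))

noncomputable def om (k : ZMod 7) : ℂ := xi ^ k.val

lemma xi_prim : IsPrimitiveRoot xi 7 := Complex.isPrimitiveRoot_exp 7 (by norm_num)

lemma xi_pow : xi ^ 7 = 1 := xi_prim.pow_eq_one

lemma om_zero : om 0 = 1 := by simp [om]

lemma om_add (a b : ZMod 7) : om (a + b) = om a * om b := by
  unfold om
  rw [← pow_add, ZMod.val_add]
  exact (pow_eq_pow_mod _ xi_pow).symm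

lemma norm_xi : ‖xi‖ = 1 := xi_prim.norm'_eq_one (by norm_num)

lemma norm_om (k : ZMod 7) : ‖om k‖ = 1 := by
  unfold om; rw [norm_pow, norm_xi, one_pow]

lemma om_ne (k : ZMod 7) : om k ≠ 0 := by
  intro h
  have := norm_om k
  rw [h, norm_zero] at this
  exact zero_ne_one this

noncomputable def C (k : ZMod 7) : ℝ := (om k).re
noncomputable def S (k : ZMod 7) : ℝ := (om k).im

lemma CS (k : ZMod 7) : C k ^ 2 + S k ^ 2 = 1 := by
  have h := norm_om k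
  have h2 : normSq (om k) = 1 := by rw [normSq_eq_norm_sq, h]; norm_num
  rw [normSq_apply] at h2
  unfold C S
  nlinarith

lemma C_add (a b : ZMod 7) : C (a + b) = C a * C b - S a * S b := by
  unfold C S; rw [om_add, mul_re]

lemma S_add (a b : ZMod 7) : S (a + b) = C a * S b + S a * C b := by
  unfold C S; rw [om_add, mul_im]

lemma C_zero : C 0 = 1 := by simp [C, om_zero]
lemma S_zero : S 0 = 0 := by simp [S, om_zero]

lemma CS_neg (k : ZMod 7) : C (-k) = C k ∧ S (-k) = - S k := by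
  have h1 := C_add k (-k)
  have h2 := S_add k (-k)
  rw [add_neg_cancel, C_zero] at h1
  rw [add_neg_cancel, S_zero] at h2
  have h3 := CS k
  have h4 := CS (-k)
  constructor
  · linear_combination (-C k) * h1 + (-S k) * h2 + (-C (-k)) * h3
  · linear_combination (S k) * h1 - (C k) * h2 - (S (-k)) * h3

lemma C_neg (k : ZMod 7) : C (-k) = C k := (CS_neg k).1
lemma S_neg (k : ZMod 7) : S (-k) = - S k := (CS_neg k).2

lemma om_eq (k : ZMod 7) : om k = ⟨C k, S k⟩ := by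
  apply Complex.ext <;> rfl

lemma C_dbl (k : ZMod 7) : C (k + k) = 2 * C k ^ 2 - 1 := by
  rw [C_add]; have := CS k; nlinarith

lemma e2 : C 2 = 2 * C 1 ^ 2 - 1 := by
  have := C_dbl 1
  rwa [show (1 : ZMod 7) + 1 = 2 by decide] at this

lemma e3 : C 3 = 2 * C 2 ^ 2 - 1 := by
  have := C_dbl 2
  rw [show (2 : ZMod 7) + 2 = -3 by decide, C_neg] at this
  exact this

lemma e1 : C 1 = 2 * C 3 ^ 2 - 1 := by
  have := C_dbl 3
  rw [show (3 : ZMod 7) + 3 = -1 by decide, C_neg] at this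
  exact this

lemma C1_half : 1 / 2 < C 1 := by
  have h1 : C 1 = Real.cos (2 * Real.pi / 7) := by
    unfold C om xi
    rw [show (1 : ZMod 7).val = 1 by decide, pow_one]
    rw [show (2 * (Real.pi : ℂ) * I / ((7 : ℕ) : ℂ)) = ((2 * Real.pi / 7 : ℝ) : ℂ) * I by
      push_cast; ring]
    rw [exp_ofReal_mul_I_re]
  rw [h1, ← Real.cos_pi_div_three]
  apply Real.cos_lt_cos_of_nonneg_of_le_pi_div_two
  · positivity
  · have := Real.pi_pos; linarith
  · have := Real.pi_pos; linarith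

lemma C1_lt_one : C 1 < 1 := by
  have h := CS 1
  have hS : S 1 ≠ 0 := by
    intro h0
    have h1 : C 1 = 1 := by
      have := C1_half
      rw [h0] at h
      nlinarith
    have h2 : om 1 = 1 := by
      rw [om_eq, h1, h0]; rfl
    unfold om at h2
    rw [show (1 : ZMod 7).val = 1 by decide, pow_one] at h2
    exact xi_prim.ne_one (by norm_num) h2
  have : 0 < S 1 ^ 2 := by positivity
  nlinarith [C1_half]

lemma minpoly1 : 8 * C 1 ^ 3 + 4 * C 1 ^ 2 - 4 * C 1 - 1 = 0 := by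
  have h3 : C 3 = C 1 * C 2 - S 1 * S 2 := by
    have := C_add 1 2
    rwa [show (1 : ZMod 7) + 2 = 3 by decide] at this
  have hs2 : S 2 = 2 * S 1 * C 1 := by
    have := S_add 1 1
    rw [show (1 : ZMod 7) + 1 = 2 by decide] at this
    rw [this]; ring
  have h := CS 1
  have h3' : C 3 = 4 * C 1 ^ 3 - 3 * C 1 := by
    rw [h3, hs2, e2]
    linear_combination (-2 * C 1) * h
  have h4 := e3
  rw [h3', e2] at h4
  have hne : C 1 - 1 ≠ 0 := by have := C1_lt_one; intro h0; linarith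
  have hprod : (C 1 - 1) * (8 * C 1 ^ 3 + 4 * C 1 ^ 2 - 4 * C 1 - 1) = 0 := by
    linear_combination -h4
  exact (mul_eq_zero.mp hprod).resolve_left hne

lemma csum : C 1 + C 2 + C 3 = -1 / 2 := by
  have h3 : C 3 = 4 * C 1 ^ 3 - 3 * C 1 := by
    have h3 : C 3 = C 1 * C 2 - S 1 * S 2 := by
      have := C_add 1 2
      rwa [show (1 : ZMod 7) + 2 = 3 by decide] at this
    have hs2 : S 2 = 2 * S 1 * C 1 := by
      have := S_add 1 1
      rw [show (1 : ZMod 7) + 1 = 2 by decide] at this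
      rw [this]; ring
    have h := CS 1
    rw [h3, hs2, e2]
    linear_combination (-2 * C 1) * h
  rw [h3, e2]
  linear_combination minpoly1 / 2

lemma b1 : 0.6234 < C 1 ∧ C 1 < 0.6235 := by
  have h := minpoly1
  have h2 := C1_half
  constructor
  · by_contra hc
    push Not at hc
    nlinarith [mul_nonneg (sub_nonneg.mpr hc) (sub_nonneg.mpr h2.le), sq_nonneg (C 1),
      mul_nonneg (mul_nonneg (sub_nonneg.mpr hc) (sub_nonneg.mpr h2.le)) (by linarith : (0:ℝ) ≤ C 1)]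
  · by_contra hc
    push Not at hc
    nlinarith [mul_nonneg (sub_nonneg.mpr hc) (sub_nonneg.mpr h2.le), sq_nonneg (C 1),
      mul_nonneg (mul_nonneg (sub_nonneg.mpr hc) (sub_nonneg.mpr h2.le)) (by linarith : (0:ℝ) ≤ C 1)]

lemma b2 : -0.2228 < C 2 ∧ C 2 < -0.2224 := by
  obtain ⟨h1, h2⟩ := b1
  rw [e2]
  constructor <;> nlinarith

lemma b3 : -0.9011 < C 3 ∧ C 3 < -0.9006 := by
  obtain ⟨h1, h2⟩ := b1
  obtain ⟨h3, h4⟩ := b2
  have := csum
  constructor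
  · linarith
  · linarith

lemma C_mul (a b : ZMod 7) : C a * C b = (C (a + b) + C (a - b)) / 2 := by
  have h1 := C_add a b
  have h2 := C_add a (-b)
  rw [C_neg, S_neg, ← sub_eq_add_neg] at h2
  linarith

lemma p11 : C 1 * C 1 = (1 + C 2) / 2 := by
  rw [C_mul]; rw [show (1 : ZMod 7) + 1 = 2 by decide, show (1 : ZMod 7) - 1 = 0 by decide, C_zero]
  ring
lemma p22 : C 2 * C 2 = (1 + C 3) / 2 := by
  rw [C_mul]; rw [show (2 : ZMod 7) + 2 = -3 by decide, show (2 : ZMod 7) - 2 = 0 by decide, C_zero,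
    C_neg]
  ring
lemma p33 : C 3 * C 3 = (1 + C 1) / 2 := by
  rw [C_mul]; rw [show (3 : ZMod 7) + 3 = -1 by decide, show (3 : ZMod 7) - 3 = 0 by decide, C_zero,
    C_neg]
  ring
lemma p12 : C 1 * C 2 = (C 3 + C 1) / 2 := by
  rw [C_mul]; rw [show (1 : ZMod 7) + 2 = 3 by decide, show (1 : ZMod 7) - 2 = -1 by decide, C_neg]
lemma p13 : C 1 * C 3 = (C 3 + C 2) / 2 := by
  rw [C_mul]; rw [show (1 : ZMod 7) + 3 = -3 by decide, show (1 : ZMod 7) - 3 = -2 by decide, C_neg,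
    C_neg]
lemma p23 : C 2 * C 3 = (C 2 + C 1) / 2 := by
  rw [C_mul]; rw [show (2 : ZMod 7) + 3 = -2 by decide, show (2 : ZMod 7) - 3 = -1 by decide, C_neg,
    C_neg]

def rep (k : ZMod 7) : ZMod 7 := if k.val ≤ 3 then k else -k

lemma C_rep (k : ZMod 7) : C (rep k) = C k := by
  unfold rep
  split_ifs
  · rfl
  · exact C_neg k

lemma rep_cases : ∀ k : ZMod 7, k ≠ 0 → rep k = 1 ∨ rep k = 2 ∨ rep k = 3 := by decide

def good (x y z : ZMod 7) : Bool :=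
  (x == 1 && y == 1 && (z == 1 || z == 3)) || (x == 2 && y == 2 && (z == 1 || z == 2)) ||
  (x == 3 && y == 3 && (z == 2 || z == 3)) || (x == 1 && y == 2 && (z == 0 || z == 2)) ||
  (x == 2 && y == 1 && (z == 0 || z == 2)) || (x == 1 && y == 3 && (z == 0 || z == 1)) ||
  (x == 3 && y == 1 && (z == 0 || z == 1)) || (x == 2 && y == 3 && (z == 0 || z == 3)) ||
  (x == 3 && y == 2 && (z == 0 || z == 3))
def chk (a b m : ZMod 7) : Bool :=
  a == 0 || b == 0 || m == a + b || m == a - b || m == -a + b || m == -a - b ||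
    good (rep a) (rep b) (rep m)
set_option maxRecDepth 100000 in
lemma chk_true : ∀ a b m : ZMod 7, chk a b m = true := by decide
lemma good_iff (x y z : ZMod 7) (h : good x y z = true) : (x = 1 ∧ y = 1 ∧ (z = 1 ∨ z = 3)) ∨
    (x = 2 ∧ y = 2 ∧ (z = 1 ∨ z = 2)) ∨
    (x = 3 ∧ y = 3 ∧ (z = 2 ∨ z = 3)) ∨
    (x = 1 ∧ y = 2 ∧ (z = 0 ∨ z = 2)) ∨
    (x = 2 ∧ y = 1 ∧ (z = 0 ∨ z = 2)) ∨
    (x = 1 ∧ y = 3 ∧ (z = 0 ∨ z = 1)) ∨
    (x = 3 ∧ y = 1 ∧ (z = 0 ∨ z = 1)) ∨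
    (x = 2 ∧ y = 3 ∧ (z = 0 ∨ z = 3)) ∨
    (x = 3 ∧ y = 2 ∧ (z = 0 ∨ z = 3)) := by
  simpa only [good, Bool.or_eq_true, Bool.and_eq_true, beq_iff_eq, or_assoc, and_assoc] using h
lemma nondeg (a b m : ZMod 7) (h1 : a ≠ 0) (h2 : b ≠ 0) (h3 : m ≠ a + b) (h4 : m ≠ a - b)
    (h5 : m ≠ -a + b) (h6 : m ≠ -a - b) : (rep a = 1 ∧ rep b = 1 ∧ (rep m = 1 ∨ rep m = 3)) ∨
    (rep a = 2 ∧ rep b = 2 ∧ (rep m = 1 ∨ rep m = 2)) ∨
    (rep a = 3 ∧ rep b = 3 ∧ (rep m = 2 ∨ rep m = 3)) ∨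
    (rep a = 1 ∧ rep b = 2 ∧ (rep m = 0 ∨ rep m = 2)) ∨
    (rep a = 2 ∧ rep b = 1 ∧ (rep m = 0 ∨ rep m = 2)) ∨
    (rep a = 1 ∧ rep b = 3 ∧ (rep m = 0 ∨ rep m = 1)) ∨
    (rep a = 3 ∧ rep b = 1 ∧ (rep m = 0 ∨ rep m = 1)) ∨
    (rep a = 2 ∧ rep b = 3 ∧ (rep m = 0 ∨ rep m = 3)) ∨
    (rep a = 3 ∧ rep b = 2 ∧ (rep m = 0 ∨ rep m = 3)) := by
  have h := chk_true a b m
  simp only [chk, Bool.or_eq_true, beq_iff_eq, h1, h2, h3, h4, h5, h6, false_or] at h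
  exact good_iff _ _ _ h

/-- the possible values of `T` -/
def TT (a b : ZMod 7) (T : ℝ) : Prop :=
  (rep a = 1 ∧ rep b = 1 ∧ 2.8 < T ∧ T < 2.84) ∨ (rep a = 2 ∧ rep b = 2 ∧ 13.4 < T ∧ T < 19) ∨
  (rep a = 1 ∧ rep b = 2 ∧ 7.2 < T ∧ T < 7.4) ∨ (rep a = 2 ∧ rep b = 1 ∧ 7.2 < T ∧ T < 7.4) ∨
  (rep a = 2 ∧ rep b = 3 ∧ 2 ≤ T ∧ T < 2.01) ∨ (rep a = 3 ∧ rep b = 2 ∧ 2 ≤ T ∧ T < 2.01)

lemma T_types (a b m : ZMod 7) (ha : a ≠ 0) (hb : b ≠ 0) (h1 : m ≠ a + b) (h2 : m ≠ a - b)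
    (h3 : m ≠ -a + b) (h4 : m ≠ -a - b) (T : ℝ) (hT2 : 2 ≤ T)
    (hT : T * |C a * C b| = 1 - C m ^ 2 + 2 * C m * (C a * C b)) : TT a b T := by
  rw [← C_rep a, ← C_rep b, ← C_rep m] at hT
  obtain ⟨l1, u1⟩ := b1
  obtain ⟨l2, u2⟩ := b2
  obtain ⟨l3, u3⟩ := b3
  have q11 := p11
  have q22 := p22
  have q33 := p33
  have q12 := p12
  have q13 := p13
  have q23 := p23
  have hsum := csum
  unfold TT
  rcases nondeg a b m ha hb h1 h2 h3 h4 with ⟨ra, rb, rm | rm⟩ | ⟨ra, rb, rm | rm⟩ |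
    ⟨ra, rb, rm | rm⟩ | ⟨ra, rb, rm | rm⟩ | ⟨ra, rb, rm | rm⟩ | ⟨ra, rb, rm | rm⟩ |
    ⟨ra, rb, rm | rm⟩ | ⟨ra, rb, rm | rm⟩ | ⟨ra, rb, rm | rm⟩
  · -- (1,1,1)
    left
    rw [ra, rb, rm, abs_of_pos (by rw [q11]; linarith)] at hT
    have hR : 1 - C 1 ^ 2 + 2 * C 1 * (C 1 * C 1) = 1 - C 2 / 2 - 1 / 2 + C 1 + (C 3 + C 1) / 2 := by
      have : C 1 * (C 1 * C 1) = (C 1 + (C 3 + C 1) / 2) / 2 := by rw [q11]; linear_combination q12 / 2
      linear_combination 2 * this - q11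
    rw [hR, q11] at hT
    refine ⟨ra, rb, ?_, ?_⟩ <;> nlinarith
  · exfalso
    rw [ra, rb, rm, abs_of_pos (by rw [q11]; linarith)] at hT
    nlinarith
  · right; left
    rw [ra, rb, rm, abs_of_pos (by rw [q22]; linarith)] at hT
    refine ⟨ra, rb, ?_, ?_⟩ <;> nlinarith
  · right; left
    rw [ra, rb, rm, abs_of_pos (by rw [q22]; linarith)] at hT
    refine ⟨ra, rb, ?_, ?_⟩ <;> nlinarith
  · exfalso
    rw [ra, rb, rm, abs_of_pos (by rw [q33]; linarith)] at hT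
    nlinarith
  · exfalso
    rw [ra, rb, rm, abs_of_pos (by rw [q33]; linarith)] at hT
    nlinarith
  · exfalso
    rw [ra, rb, rm, abs_of_neg (by rw [q12]; linarith), C_zero] at hT
    nlinarith
  · right; right; left
    rw [ra, rb, rm, abs_of_neg (by rw [q12]; linarith)] at hT
    refine ⟨ra, rb, ?_, ?_⟩ <;> nlinarith
  · exfalso
    rw [ra, rb, rm, mul_comm (C 2) (C 1), abs_of_neg (by rw [q12]; linarith), C_zero] at hT
    nlinarith
  · right; right; right; left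
    rw [ra, rb, rm, mul_comm (C 2) (C 1), abs_of_neg (by rw [q12]; linarith)] at hT
    refine ⟨ra, rb, ?_, ?_⟩ <;> nlinarith
  · exfalso
    rw [ra, rb, rm, abs_of_neg (by rw [q13]; linarith), C_zero] at hT
    nlinarith
  · exfalso
    rw [ra, rb, rm, abs_of_neg (by rw [q13]; linarith)] at hT
    nlinarith
  · exfalso
    rw [ra, rb, rm, mul_comm (C 3) (C 1), abs_of_neg (by rw [q13]; linarith), C_zero] at hT
    nlinarith
  · exfalso
    rw [ra, rb, rm, mul_comm (C 3) (C 1), abs_of_neg (by rw [q13]; linarith)] at hT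
    nlinarith
  · right; right; right; right; left
    rw [ra, rb, rm, abs_of_pos (by rw [q23]; linarith), C_zero] at hT
    refine ⟨ra, rb, hT2, ?_⟩
    nlinarith
  · exfalso
    rw [ra, rb, rm, abs_of_pos (by rw [q23]; linarith)] at hT
    nlinarith
  · right; right; right; right; right
    rw [ra, rb, rm, mul_comm (C 3) (C 2), abs_of_pos (by rw [q23]; linarith), C_zero] at hT
    refine ⟨ra, rb, hT2, ?_⟩
    nlinarith
  · exfalso
    rw [ra, rb, rm, mul_comm (C 3) (C 2), abs_of_pos (by rw [q23]; linarith)] at hT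
    nlinarith

lemma c111 : C 1 * C 1 * C 1 = (3 * C 1 + C 3) / 4 := by
  rw [p11]; linear_combination p12 / 2
lemma c112 : C 1 * C 1 * C 2 = (1 + 2 * C 2 + C 3) / 4 := by
  rw [p11]; linear_combination p22 / 2
lemma c113 : C 1 * C 1 * C 3 = (C 1 + C 2 + 2 * C 3) / 4 := by
  rw [p11]; linear_combination p23 / 2
lemma c122 : C 1 * C 2 * C 2 = (2 * C 1 + C 2 + C 3) / 4 := by
  rw [mul_assoc, p22]; linear_combination p13 / 2
lemma c123 : C 1 * C 2 * C 3 = 1 / 8 := by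
  rw [p12]; linear_combination p33 / 2 + p13 / 2 + csum / 4
lemma c133 : C 1 * C 3 * C 3 = (1 + 2 * C 1 + C 2) / 4 := by
  rw [mul_assoc, p33]; linear_combination p11 / 2
lemma c222 : C 2 * C 2 * C 2 = (C 1 + 3 * C 2) / 4 := by
  rw [p22]; linear_combination p23 / 2
lemma c223 : C 2 * C 2 * C 3 = (1 + C 1 + 2 * C 3) / 4 := by
  rw [p22]; linear_combination p33 / 2
lemma c233 : C 2 * C 3 * C 3 = (C 1 + 2 * C 2 + C 3) / 4 := by
  rw [mul_assoc, p33]; linear_combination p12 / 2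
lemma c333 : C 3 * C 3 * C 3 = (C 2 + 3 * C 3) / 4 := by
  rw [p33]; linear_combination p13 / 2

lemma fricke {x y z : ℝ} (hx : 0 < x) (hy : 0 < y) (hz : 0 < z) :
    (x / y + y / x) ^ 2 + (y / z + z / y) ^ 2 + (z / x + x / z) ^ 2
      - (x / y + y / x) * (y / z + z / y) * (z / x + x / z) = 4 := by
  field_simp
  ring

lemma aux23 {x y z : ℝ} (l1 : 13.4 < x) (l2 : 2 ≤ y) (u2 : y < 2.01) (l3 : 2 ≤ z)
    (u3 : z < 2.01) : 4 < x ^ 2 + y ^ 2 + z ^ 2 - x * y * z := by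
  have hyz : y * z < 4.05 := by nlinarith
  have hx : x * (y * z) < x * 4.05 := by
    apply mul_lt_mul_of_pos_left hyz; linarith
  nlinarith

lemma caseB_num {a b c : ZMod 7} {x y z : ℝ} (h1 : TT a b x) (h2 : TT b c y) (h3 : TT c a z)
    (h : x ^ 2 + y ^ 2 + z ^ 2 - x * y * z = 4) : False := by
  rcases h1 with ⟨r1, r2, l1, u1⟩ | ⟨r1, r2, l1, u1⟩ | ⟨r1, r2, l1, u1⟩ | ⟨r1, r2, l1, u1⟩ |
    ⟨r1, r2, l1, u1⟩ | ⟨r1, r2, l1, u1⟩ <;>
  rcases h2 with ⟨r3, r4, l2, u2⟩ | ⟨r3, r4, l2, u2⟩ | ⟨r3, r4, l2, u2⟩ | ⟨r3, r4, l2, u2⟩ |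
    ⟨r3, r4, l2, u2⟩ | ⟨r3, r4, l2, u2⟩ <;>
  first
  | (rw [r2] at r3; exact absurd r3 (by decide))
  | (rcases h3 with ⟨r5, r6, l3, u3⟩ | ⟨r5, r6, l3, u3⟩ | ⟨r5, r6, l3, u3⟩ | ⟨r5, r6, l3, u3⟩ |
      ⟨r5, r6, l3, u3⟩ | ⟨r5, r6, l3, u3⟩ <;>
     first
     | (rw [r4] at r5; exact absurd r5 (by decide))
     | (rw [r1] at r6; exact absurd r6 (by decide))
     | nlinarith [mul_pos (sub_pos.mpr l1) (sub_pos.mpr l2), mul_pos (sub_pos.mpr l1) (sub_pos.mpr l3),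
         mul_pos (sub_pos.mpr l2) (sub_pos.mpr l3), mul_pos (sub_pos.mpr u1) (sub_pos.mpr l2),
         mul_pos (sub_pos.mpr u1) (sub_pos.mpr l1), mul_pos (sub_pos.mpr u2) (sub_pos.mpr l2),
         mul_pos (sub_pos.mpr u3) (sub_pos.mpr l3),
         mul_pos (mul_pos (sub_pos.mpr l1) (sub_pos.mpr l2)) (sub_pos.mpr l3)]
     | linarith [aux23 l1 l2 u2 l3 u3]
     | linarith [aux23 l2 l3 u3 l1 u1]
     | linarith [aux23 l3 l1 u1 l2 u2])

/-- the possible values of `F` in the second case -/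
def FF (b b' : ZMod 7) (F : ℝ) : Prop :=
  (0.98 < F ∧ F < 1.02) ∨
  (((rep b = 1 ∧ rep b' = 2) ∨ (rep b = 2 ∧ rep b' = 1)) ∧ 0.39 < F ∧ F < 0.41) ∨
  (((rep b = 1 ∧ rep b' = 3) ∨ (rep b = 3 ∧ rep b' = 1)) ∧ 3.0 < F ∧ F < 3.2) ∨
  (((rep b = 2 ∧ rep b' = 3) ∨ (rep b = 3 ∧ rep b' = 2)) ∧ 6.3 < F ∧ F < 6.7)

lemma FF_symm {b b' : ZMod 7} {F : ℝ} (h : FF b' b F) : FF b b' F := by
  unfold FF at *
  tauto

lemma Fbd {F D R lo hi : ℝ} (hF : F * D = R) (hD : 0 < D) (h1 : lo * D < R) (h2 : R < hi * D) :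
    lo < F ∧ F < hi := by
  rw [← hF] at h1 h2
  exact ⟨lt_of_mul_lt_mul_right h1 hD.le, lt_of_mul_lt_mul_right h2 hD.le⟩

lemma fval_aux (b b' e : ZMod 7) (hb : (rep b = 1 ∧ rep b' = 2) ∨ (rep b = 1 ∧ rep b' = 3) ∨
    (rep b = 2 ∧ rep b' = 3)) (he : e ≠ 0) (F : ℝ)
    (hF : F * (1 - C e ^ 2) = C b ^ 2 + C b' ^ 2 - 2 * C e * (C b * C b')) : FF b b' F := by
  rw [← C_rep b, ← C_rep b', ← C_rep e] at hF
  obtain ⟨l1, u1⟩ := b1
  obtain ⟨l2, u2⟩ := b2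
  obtain ⟨l3, u3⟩ := b3
  have hsum := csum
  have q11 := p11
  have q22 := p22
  have q33 := p33
  have d1 : 1 - C 1 ^ 2 = (1 - C 2) / 2 := by linear_combination -q11
  have d2 : 1 - C 2 ^ 2 = (1 - C 3) / 2 := by linear_combination -q22
  have d3 : 1 - C 3 ^ 2 = (1 - C 1) / 2 := by linear_combination -q33
  unfold FF
  rcases hb with ⟨r1, r2⟩ | ⟨r1, r2⟩ | ⟨r1, r2⟩ <;>
  rcases rep_cases e he with r3 | r3 | r3 <;> rw [r1, r2, r3] at hF
  · left
    have hR : C 1 ^ 2 + C 2 ^ 2 - 2 * C 1 * (C 1 * C 2) = (1 - C 2) / 2 := by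
      linear_combination q11 + q22 - 2 * c112
    rw [d1, hR] at hF
    exact Fbd hF (by linarith) (by linarith) (by linarith)
  · right; left
    have hR : C 1 ^ 2 + C 2 ^ 2 - 2 * C 2 * (C 1 * C 2) = 1 - C 1 := by
      linear_combination q11 + q22 - 2 * c122
    rw [d2, hR] at hF
    exact ⟨Or.inl ⟨r1, r2⟩, Fbd hF (by linarith) (by linarith) (by linarith)⟩
  · left
    have hR : C 1 ^ 2 + C 2 ^ 2 - 2 * C 3 * (C 1 * C 2) = (1 + C 2) / 2 + (1 + C 3) / 2 - 1 / 4 := by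
      linear_combination q11 + q22 - 2 * c123
    rw [d3, hR] at hF
    exact Fbd hF (by linarith) (by linarith) (by linarith)
  · right; right; left
    have hR : C 1 ^ 2 + C 3 ^ 2 - 2 * C 1 * (C 1 * C 3)
        = (1 + C 2) / 2 + (1 + C 1) / 2 - (C 1 + C 2 + 2 * C 3) / 2 := by
      linear_combination q11 + q33 - 2 * c113
    rw [d1, hR] at hF
    exact ⟨Or.inl ⟨r1, r2⟩, Fbd hF (by linarith) (by linarith) (by linarith)⟩
  · left
    have hR : C 1 ^ 2 + C 3 ^ 2 - 2 * C 2 * (C 1 * C 3) = (1 + C 2) / 2 + (1 + C 1) / 2 - 1 / 4 := by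
      linear_combination q11 + q33 - 2 * c123
    rw [d2, hR] at hF
    exact Fbd hF (by linarith) (by linarith) (by linarith)
  · left
    have hR : C 1 ^ 2 + C 3 ^ 2 - 2 * C 3 * (C 1 * C 3) = (1 - C 1) / 2 := by
      linear_combination q11 + q33 - 2 * c133
    rw [d3, hR] at hF
    exact Fbd hF (by linarith) (by linarith) (by linarith)
  · left
    have hR : C 2 ^ 2 + C 3 ^ 2 - 2 * C 1 * (C 2 * C 3) = (1 + C 3) / 2 + (1 + C 1) / 2 - 1 / 4 := by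
      linear_combination q22 + q33 - 2 * c123
    rw [d1, hR] at hF
    exact Fbd hF (by linarith) (by linarith) (by linarith)
  · left
    have hR : C 2 ^ 2 + C 3 ^ 2 - 2 * C 2 * (C 2 * C 3) = (1 - C 3) / 2 := by
      linear_combination q22 + q33 - 2 * c223
    rw [d2, hR] at hF
    exact Fbd hF (by linarith) (by linarith) (by linarith)
  · right; right; right
    have hR : C 2 ^ 2 + C 3 ^ 2 - 2 * C 3 * (C 2 * C 3)
        = (1 + C 3) / 2 + (1 + C 1) / 2 - (C 1 + 2 * C 2 + C 3) / 2 := by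
      linear_combination q22 + q33 - 2 * c233
    rw [d3, hR] at hF
    exact ⟨Or.inl ⟨r1, r2⟩, Fbd hF (by linarith) (by linarith) (by linarith)⟩

lemma fval (b b' e : ZMod 7) (hb : b ≠ 0) (hb' : b' ≠ 0) (hbb : rep b ≠ rep b') (he : e ≠ 0)
    (F : ℝ) (hF : F * (1 - C e ^ 2) = C b ^ 2 + C b' ^ 2 - 2 * C e * (C b * C b')) :
    FF b b' F := by
  have hF' : F * (1 - C e ^ 2) = C b' ^ 2 + C b ^ 2 - 2 * C e * (C b' * C b) := by
    rw [hF]; ring
  rcases rep_cases b hb with r | r | r <;> rcases rep_cases b' hb' with r' | r' | r'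
  · exact absurd (r.trans r'.symm) hbb
  · exact fval_aux b b' e (by tauto) he F hF
  · exact fval_aux b b' e (by tauto) he F hF
  · exact FF_symm (fval_aux b' b e (by tauto) he F hF')
  · exact absurd (r.trans r'.symm) hbb
  · exact fval_aux b b' e (by tauto) he F hF
  · exact FF_symm (fval_aux b' b e (by tauto) he F hF')
  · exact FF_symm (fval_aux b' b e (by tauto) he F hF')
  · exact absurd (r.trans r'.symm) hbb

lemma sqb (a : ZMod 7) (ha : a ≠ 0) : (rep a = 1 ∧ 0.38 < C a ^ 2 ∧ C a ^ 2 < 0.39) ∨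
    (rep a = 2 ∧ 0.049 < C a ^ 2 ∧ C a ^ 2 < 0.05) ∨
    (rep a = 3 ∧ 0.81 < C a ^ 2 ∧ C a ^ 2 < 0.82) := by
  obtain ⟨l1, u1⟩ := b1
  obtain ⟨l2, u2⟩ := b2
  obtain ⟨l3, u3⟩ := b3
  have q11 := p11
  have q22 := p22
  have q33 := p33
  rw [← C_rep a]
  rcases rep_cases a ha with r | r | r <;> rw [r, sq]
  · left; exact ⟨rfl, by linarith, by linarith⟩
  · right; left; exact ⟨rfl, by linarith, by linarith⟩
  · right; right; exact ⟨rfl, by linarith, by linarith⟩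

set_option maxHeartbeats 4000000 in
lemma caseC_num {a a' b b' : ZMod 7} (ha : a ≠ 0) (ha' : a' ≠ 0) (haa : rep a ≠ rep a')
    {F F' : ℝ} (h1 : FF b b' F) (h2 : FF b b' F') (h : C a ^ 2 * F = C a' ^ 2 * F') : False := by
  rcases sqb a ha with ⟨r1, l1, u1⟩ | ⟨r1, l1, u1⟩ | ⟨r1, l1, u1⟩ <;>
  rcases sqb a' ha' with ⟨r2, l2, u2⟩ | ⟨r2, l2, u2⟩ | ⟨r2, l2, u2⟩ <;>
  first
  | exact absurd (r1.trans r2.symm) haa
  | (rcases h1 with ⟨l3, u3⟩ | ⟨t1, l3, u3⟩ | ⟨t1, l3, u3⟩ | ⟨t1, l3, u3⟩ <;>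
     rcases h2 with ⟨l4, u4⟩ | ⟨t2, l4, u4⟩ | ⟨t2, l4, u4⟩ | ⟨t2, l4, u4⟩ <;>
     first
     | (have e1 := mul_lt_mul'' u1 u3 (by linarith) (by linarith)
        have e2 := mul_lt_mul'' l2 l4 (by norm_num) (by norm_num)
        have e3 := mul_lt_mul'' u2 u4 (by linarith) (by linarith)
        have e4 := mul_lt_mul'' l1 l3 (by norm_num) (by norm_num)
        rw [h] at e1 e4
        linarith)
     | (exfalso
        rcases t1 with ⟨s1, s2⟩ | ⟨s1, s2⟩ <;> rcases t2 with ⟨s3, s4⟩ | ⟨s3, s4⟩ <;>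
        first
        | (rw [s1] at s3; exact absurd s3 (by decide))
        | (rw [s2] at s4; exact absurd s4 (by decide))))

lemma caseA_num {P Q R P' Q' R' : ZMod 7} (hP : P = 1 ∨ P = 2 ∨ P = 3)
    (hQ : Q = 1 ∨ Q = 2 ∨ Q = 3) (hR : R = 1 ∨ R = 2 ∨ R = 3) (hP' : P' = 1 ∨ P' = 2 ∨ P' = 3)
    (hQ' : Q' = 1 ∨ Q' = 2 ∨ Q' = 3) (hR' : R' = 1 ∨ R' = 2 ∨ R' = 3)
    (n1 : P ≠ P') (n2 : Q ≠ Q') (n3 : R ≠ R') (n4 : R ≠ Q') (n5 : P ≠ R') (n6 : Q ≠ P')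
    (h : C P * C Q * C R = C P' * C Q' * C R') :
    P = Q' ∧ Q = R' ∧ R = P' ∧ P ≠ Q ∧ Q ≠ R ∧ R ≠ P := by
  obtain ⟨l1, u1⟩ := b1
  obtain ⟨l2, u2⟩ := b2
  obtain ⟨l3, u3⟩ := b3
  have k1 := c111
  have k2 := c112
  have k3 := c113
  have k4 := c122
  have k5 := c123
  have k6 := c133
  have k7 := c222
  have k8 := c223
  have k9 := c233
  have k0 := c333
  rcases hP with rfl | rfl | rfl <;> rcases hP' with rfl | rfl | rfl <;>
  first
  | exact absurd rfl n1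
  | (rcases hQ with rfl | rfl | rfl <;>
     first
     | exact absurd rfl n6
     | (rcases hQ' with rfl | rfl | rfl <;>
        first
        | exact absurd rfl n2
        | (rcases hR with rfl | rfl | rfl <;>
           first
           | exact absurd rfl n4
           | (rcases hR' with rfl | rfl | rfl <;>
              first
              | exact absurd rfl n3
              | exact absurd rfl n5
              | exact ⟨rfl, rfl, rfl, by decide, by decide, by decide⟩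
              | (exfalso; linarith)))))

end Pool.Agent.H33G
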