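import Mathlib
import Pool.Agent.H33G.Num

namespace Pool.Agent.H33G

open Complex

lemma C_ne (k : ZMod 7) : C k ≠ 0 := by
  obtain ⟨l1, u1⟩ := b1
  obtain ⟨l2, u2⟩ := b2
  obtain ⟨l3, u3⟩ := b3
  by_cases hk : k = 0
  · rw [hk, C_zero]; norm_num
  · rw [← C_rep k]
    rcases rep_cases k hk with r | r | r <;> rw [r] <;> intro h <;> linarith

lemma C_sq_lt (k : ZMod 7) (hk : k ≠ 0) : C k ^ 2 < 0.82 := by
  rcases sqb k hk with ⟨_, _, h⟩ | ⟨_, _, h⟩ | ⟨_, _, h⟩ <;> linarith

lemma S_ne (k : ZMod 7) (hk : k ≠ 0) : S k ≠ 0 := by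
  intro h
  have h1 := CS k
  have h2 := C_sq_lt k hk
  rw [h] at h1
  linarith

lemma rep_inj : ∀ a b : ZMod 7, rep a = rep b → a = b ∨ a = -b := by decide

lemma rep_zero : ∀ k : ZMod 7, rep k = 0 → k = 0 := by decide

lemma rep_four : ∀ k : ZMod 7, rep k = 0 ∨ rep k = 1 ∨ rep k = 2 ∨ rep k = 3 := by decide

lemma four_ne : ∀ m1 m2 : ZMod 7, m1 ≠ m2 → 4 * (m1 - m2) ≠ 0 := by decide

lemma four_e1 : ∀ m1 m2 : ZMod 7, m1 = 4 * (m1 - m2) + 4 * (m1 + m2) := by decide

lemma four_e2 : ∀ m1 m2 : ZMod 7, m2 = -(4 * (m1 - m2)) + 4 * (m1 + m2) := by decide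

lemma C_inj_rep (a b : ZMod 7) (h : C a = C b) : rep a = rep b := by
  obtain ⟨l1, u1⟩ := b1
  obtain ⟨l2, u2⟩ := b2
  obtain ⟨l3, u3⟩ := b3
  have h0 := C_zero
  rw [← C_rep a, ← C_rep b] at h
  have ha := rep_four a
  have hb := rep_four b
  rcases ha with r | r | r | r <;> rcases hb with r' | r' | r' | r' <;> rw [r, r'] at h ⊢ <;>
    first
    | rfl
    | (exfalso; linarith)

lemma C_inj (a b : ZMod 7) (h : C a = C b) : a = b ∨ a = -b := rep_inj a b (C_inj_rep a b h)

lemma om_mul_re (k : ZMod 7) (z : ℂ) : (om k * z).re = C k * z.re - S k * z.im := by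
  rw [mul_re]; rfl

lemma om_neg_mul (k : ZMod 7) : om (-k) * om k = 1 := by
  rw [← om_add, neg_add_cancel, om_zero]

lemma om_conj (k : ZMod 7) : (starRingEnd ℂ) (om k) = om (-k) := by
  rw [om_eq, om_eq (-k), C_neg, S_neg]
  rfl

/-- two incidences determine the product -/
lemma dbl_of_two {w : ℂ} {m1 m2 : ZMod 7} (hne : m1 ≠ m2) (h1 : (om m1 * w).re = 1)
    (h2 : (om m2 * w).re = 1) : ∃ h d : ZMod 7, d ≠ 0 ∧ om h * w = (((C d)⁻¹ : ℝ) : ℂ) := by
  refine ⟨4 * (m1 + m2), 4 * (m1 - m2), four_ne m1 m2 hne, ?_⟩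
  · set h := 4 * (m1 + m2) with hh
    set d := 4 * (m1 - m2) with hd
    have hd0 : d ≠ 0 := four_ne m1 m2 hne
    have e1 : m1 = d + h := four_e1 m1 m2
    have e2' : m2 = -d + h := four_e2 m1 m2
    rw [e1, om_add, mul_assoc, om_mul_re] at h1
    rw [e2', om_add, mul_assoc, om_mul_re, C_neg, S_neg] at h2
    have hS := S_ne d hd0
    have hC := C_ne d
    have h3 : S d * (om h * w).im = 0 := by linarith
    have him : (om h * w).im = 0 := (mul_eq_zero.mp h3).resolve_left hS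
    rw [him] at h1
    have hre : (om h * w).re = (C d)⁻¹ := by
      field_simp
      linarith
    apply Complex.ext
    · rw [hre, ofReal_re]
    · rw [him, ofReal_im]

lemma inc_iff {w : ℂ} {h d : ZMod 7} (hw : om h * w = (((C d)⁻¹ : ℝ) : ℂ)) (m : ZMod 7) :
    (om m * w).re = 1 ↔ m = h + d ∨ m = h - d := by
  have e : om m * w = om (m - h) * (((C d)⁻¹ : ℝ) : ℂ) := by
    rw [← hw, ← mul_assoc, ← om_add, sub_add_cancel]
  rw [e, om_mul_re, ofReal_re, ofReal_im, mul_zero, sub_zero]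
  have hC := C_ne d
  constructor
  · intro h1
    have h2 : C (m - h) = C d := by
      field_simp at h1
      exact h1
    rcases C_inj _ _ h2 with h3 | h3
    · left; rw [← h3]; ring
    · right; rw [sub_eq_iff_eq_add] at h3; rw [h3]; ring
  · rintro (rfl | rfl)
    · rw [add_sub_cancel_left]; exact mul_inv_cancel₀ hC
    · rw [sub_sub_cancel_left, C_neg]; exact mul_inv_cancel₀ hC

lemma four_re {W W' A A' : ℂ} (h1 : W.re = 1) (h2 : W'.re = 1) (h3 : A.re = 1) (h4 : A'.re = 1)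
    (h : W * W' = A * A') : W = A ∨ W = A' := by
  have hre := congrArg Complex.re h
  have him := congrArg Complex.im h
  simp only [mul_re, mul_im, h1, h2, h3, h4] at hre him
  have h5 : (W.im - A.im) * (W.im - A'.im) = 0 := by
    have : W'.im = A.im + A'.im - W.im := by linarith
    rw [this] at hre
    linear_combination hre
  rcases mul_eq_zero.mp h5 with h6 | h6
  · left; apply Complex.ext
    · rw [h1, h3]
    · linarith
  · right; apply Complex.ext
    · rw [h1, h4]
    · linarith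

/-- the pair lemma of the case `no zero entry` -/
lemma pair_TT {x y n p : ℂ} {h h' d d' k k' : ZMod 7} (hd : d ≠ 0) (hd' : d' ≠ 0)
    (e : om h * (x * (starRingEnd ℂ) n) = (((C d)⁻¹ : ℝ) : ℂ))
    (e' : om h' * (y * (starRingEnd ℂ) p) = (((C d')⁻¹ : ℝ) : ℂ))
    (f : (om k * (x * (starRingEnd ℂ) p)).re = 1) (f' : (om k' * (y * (starRingEnd ℂ) n)).re = 1)
    (hxy : ∀ m, x ≠ om m * y) (hnp : ∀ m, p ≠ om m * n) :
    TT d d' ((‖x‖ / ‖n‖) / (‖y‖ / ‖p‖) + (‖y‖ / ‖p‖) / (‖x‖ / ‖n‖)) := by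
  have hC := C_ne d
  have hC' := C_ne d'
  have hx0 : x ≠ 0 := by rintro rfl; simp at f
  have hy0 : y ≠ 0 := by rintro rfl; simp at f'
  have hn0 : n ≠ 0 := by rintro rfl; simp at f'
  have hp0 : p ≠ 0 := by rintro rfl; simp at f
  have hcn : (starRingEnd ℂ) n ≠ 0 := by simpa using hn0
  have hcp : (starRingEnd ℂ) p ≠ 0 := by simpa using hp0
  have hXn : 0 < ‖x‖ := norm_pos_iff.mpr hx0
  have hYn : 0 < ‖y‖ := norm_pos_iff.mpr hy0
  have hNn : 0 < ‖n‖ := norm_pos_iff.mpr hn0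
  have hPn : 0 < ‖p‖ := norm_pos_iff.mpr hp0
  have hdc : (C d : ℂ) ≠ 0 := by exact_mod_cast hC
  have hdc' : (C d' : ℂ) ≠ 0 := by exact_mod_cast hC'
  have E : om h * (x * (starRingEnd ℂ) n) * (C d : ℂ) = 1 := by
    rw [e]; push_cast; exact inv_mul_cancel₀ hdc
  have E' : om h' * (y * (starRingEnd ℂ) p) * (C d' : ℂ) = 1 := by
    rw [e']; push_cast; exact inv_mul_cancel₀ hdc'
  -- the product
  have prod : (om k * (x * (starRingEnd ℂ) p)) * (om k' * (y * (starRingEnd ℂ) n))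
      * ((C d * C d' : ℝ) : ℂ) = om (k + k' - h - h') := by
    have h1 : om (k + k' - h - h') * (om h * om h') = om k * om k' := by
      rw [← om_add, ← om_add, ← om_add]; congr 1; ring
    have h2 : om k * om k' * ((x * (starRingEnd ℂ) n) * (C d : ℂ))
        * ((y * (starRingEnd ℂ) p) * (C d' : ℂ)) = om (k + k' - h - h') := by
      rw [← h1]
      linear_combination (om (k + k' - h - h')) * (E' * (om h * (x * (starRingEnd ℂ) n) * (C d : ℂ)))
        + (om (k + k' - h - h')) * E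
    rw [← h2]; push_cast; ring
  -- degenerate values are impossible
  have deg : ∀ a a' : ZMod 7, C a = C d → C a' = C d' → k + k' - h - h' ≠ a + a' := by
    intro a a' ha ha' hm
    rw [hm, om_add] at prod
    have hA : (om a * (((C d)⁻¹ : ℝ) : ℂ)).re = 1 := by
      rw [om_mul_re, ofReal_re, ofReal_im, ha]
      field_simp
      ring
    have hA' : (om a' * (((C d')⁻¹ : ℝ) : ℂ)).re = 1 := by
      rw [om_mul_re, ofReal_re, ofReal_im, ha']
      field_simp
      ring
    have hWW : (om k * (x * (starRingEnd ℂ) p)) * (om k' * (y * (starRingEnd ℂ) n))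
        = (om a * (((C d)⁻¹ : ℝ) : ℂ)) * (om a' * (((C d')⁻¹ : ℝ) : ℂ)) := by
      have h3 : ((C d * C d' : ℝ) : ℂ) ≠ 0 := by
        push_cast; exact mul_ne_zero hdc hdc'
      apply mul_right_cancel₀ h3
      rw [prod]
      push_cast
      field_simp
    rcases four_re f f' hA hA' hWW with h4 | h4
    · -- `p` is a rotate of `n`
      rw [← e] at h4
      have h5 : om k * (starRingEnd ℂ) p = om (a + h) * (starRingEnd ℂ) n := by
        rw [om_add]
        apply mul_left_cancel₀ hx0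
        linear_combination h4
      have h6 : (starRingEnd ℂ) p = om (-k + (a + h)) * (starRingEnd ℂ) n := by
        rw [om_add]
        linear_combination (om (-k)) * h5 - ((starRingEnd ℂ) p) * om_neg_mul k
      have h7 := congrArg (starRingEnd ℂ) h6
      rw [map_mul, conj_conj, conj_conj, om_conj] at h7
      exact hnp _ h7
    · rw [← e'] at h4
      have h5 : om k * x = om (a' + h') * y := by
        rw [om_add]
        apply mul_right_cancel₀ hcp
        linear_combination h4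
      have h6 : x = om (-k + (a' + h')) * y := by
        rw [om_add]
        linear_combination (om (-k)) * h5 - x * om_neg_mul k
      exact hxy _ h6
  apply T_types d d' (k + k' - h - h') hd hd' (deg d d' rfl rfl)
  · have := deg d (-d') rfl (C_neg d'); rwa [← sub_eq_add_neg] at this
  · exact deg (-d) d' (C_neg d) rfl
  · have := deg (-d) (-d') (C_neg d) (C_neg d'); rwa [← sub_eq_add_neg] at this
  · -- AM-GM
    have hr : 0 < ‖x‖ / ‖n‖ := div_pos hXn hNn
    have hs : 0 < ‖y‖ / ‖p‖ := div_pos hYn hPn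
    have : (‖x‖ / ‖n‖) / (‖y‖ / ‖p‖) + (‖y‖ / ‖p‖) / (‖x‖ / ‖n‖) - 2
        = ((‖x‖ / ‖n‖) - (‖y‖ / ‖p‖)) ^ 2 / ((‖x‖ / ‖n‖) * (‖y‖ / ‖p‖)) := by
      generalize ‖x‖ / ‖n‖ = r at *
      generalize ‖y‖ / ‖p‖ = s at *
      field_simp
      ring
    have h8 : 0 ≤ ((‖x‖ / ‖n‖) - (‖y‖ / ‖p‖)) ^ 2 / ((‖x‖ / ‖n‖) * (‖y‖ / ‖p‖)) := by positivity
    linarith
  · -- the value of `T`
    have nE : ‖x‖ * ‖n‖ * |C d| = 1 := by
      have := congrArg norm E
      simpa [norm_mul, norm_om, mul_assoc] using this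
    have nE' : ‖y‖ * ‖p‖ * |C d'| = 1 := by
      have := congrArg norm E'
      simpa [norm_mul, norm_om, mul_assoc] using this
    set W := om k * (x * (starRingEnd ℂ) p) with hW
    set W' := om k' * (y * (starRingEnd ℂ) n) with hW'
    have nW : normSq W = ‖x‖ ^ 2 * ‖p‖ ^ 2 := by
      rw [normSq_eq_norm_sq, hW, norm_mul, norm_om, norm_mul, RCLike.norm_conj]; ring
    have nW' : normSq W' = ‖y‖ ^ 2 * ‖n‖ ^ 2 := by
      rw [normSq_eq_norm_sq, hW', norm_mul, norm_om, norm_mul, RCLike.norm_conj]; ring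
    rw [normSq_apply, f] at nW
    rw [normSq_apply, f'] at nW'
    have hre := congrArg Complex.re prod
    have him := congrArg Complex.im prod
    rw [re_mul_ofReal, mul_re, f, f'] at hre
    rw [im_mul_ofReal, mul_im, f, f'] at him
    have hCre : (om (k + k' - h - h')).re = C (k + k' - h - h') := rfl
    have hSim : (om (k + k' - h - h')).im = S (k + k' - h - h') := rfl
    rw [hCre] at hre
    rw [hSim] at him
    have hCS := CS (k + k' - h - h')
    have key : (C d * C d') ^ 2 * ((1 + W.im * W.im) + (1 + W'.im * W'.im))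
        = 1 - C (k + k' - h - h') ^ 2 + 2 * C (k + k' - h - h') * (C d * C d') := by
      rw [← hre, ← him] at hCS
      rw [← hre]
      linear_combination hCS
    rw [← key]
    have hG : |C d * C d'| = |C d| * |C d'| := abs_mul _ _
    have hG2 : (C d * C d') ^ 2 = (|C d| * |C d'|) ^ 2 := by rw [← hG, sq_abs]
    have a1 : (1 + W.im * W.im) = ‖x‖ ^ 2 * ‖p‖ ^ 2 := by linarith
    have a2 : (1 + W'.im * W'.im) = ‖y‖ ^ 2 * ‖n‖ ^ 2 := by linarith
    rw [hG, hG2, a1, a2]
    have i1 : |C d| = 1 / (‖x‖ * ‖n‖) := by field_simp; linarith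
    have i2 : |C d'| = 1 / (‖y‖ * ‖p‖) := by field_simp; linarith
    rw [i1, i2]
    field_simp

lemma fval_of {b b' e : ZMod 7} (hb : b ≠ 0) (hb' : b' ≠ 0) (hbb : rep b ≠ rep b') {z : ℂ}
    (h1 : z.re = C b) (h2 : (om e * z).re = C b') : FF b b' (normSq z) := by
  have he : e ≠ 0 := by
    rintro rfl
    rw [om_zero, one_mul, h1] at h2
    exact hbb (C_inj_rep _ _ h2)
  apply fval b b' e hb hb' hbb he
  rw [om_mul_re, h1] at h2
  rw [normSq_apply, h1]
  have h3 := CS e
  have h4 : S e * z.im = C e * C b - C b' := by linarith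
  have h5 : (S e * z.im) ^ 2 = (C e * C b - C b') ^ 2 := by rw [h4]
  have h6 : S e ^ 2 = 1 - C e ^ 2 := by linarith
  linear_combination h5 - (z.im ^ 2) * h6

/-- no configuration in the case `exactly one zero entry and a block of ones` -/
lemma caseC_false {x0 x1 x2 n0 n1 n2 : ℂ} {h h' g g' β β' α α' k11 k12 k21 k22 : ZMod 7}
    (hβ : β ≠ 0) (hβ' : β' ≠ 0) (hα : α ≠ 0) (hα' : α' ≠ 0)
    (e1 : om h * (x0 * (starRingEnd ℂ) n1) = (((C β)⁻¹ : ℝ) : ℂ))
    (e2' : om h' * (x0 * (starRingEnd ℂ) n2) = (((C β')⁻¹ : ℝ) : ℂ))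
    (e3' : om g * (x1 * (starRingEnd ℂ) n0) = (((C α)⁻¹ : ℝ) : ℂ))
    (e4 : om g' * (x2 * (starRingEnd ℂ) n0) = (((C α')⁻¹ : ℝ) : ℂ))
    (f11 : (om k11 * (x1 * (starRingEnd ℂ) n1)).re = 1)
    (f12 : (om k12 * (x1 * (starRingEnd ℂ) n2)).re = 1)
    (f21 : (om k21 * (x2 * (starRingEnd ℂ) n1)).re = 1)
    (f22 : (om k22 * (x2 * (starRingEnd ℂ) n2)).re = 1)
    (hx : ∀ m, x1 ≠ om m * x2) (hn : ∀ m, n1 ≠ om m * n2) : False := by
  have cβ : (C β : ℂ) ≠ 0 := by exact_mod_cast C_ne β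
  have cβ' : (C β' : ℂ) ≠ 0 := by exact_mod_cast C_ne β'
  have cα : (C α : ℂ) ≠ 0 := by exact_mod_cast C_ne α
  have cα' : (C α' : ℂ) ≠ 0 := by exact_mod_cast C_ne α'
  have E1 : om h * (x0 * (starRingEnd ℂ) n1) * (C β : ℂ) = 1 := by
    rw [e1]; push_cast; exact inv_mul_cancel₀ cβ
  have E2 : om h' * (x0 * (starRingEnd ℂ) n2) * (C β' : ℂ) = 1 := by
    rw [e2']; push_cast; exact inv_mul_cancel₀ cβ'
  have E3 : om g * (x1 * (starRingEnd ℂ) n0) * (C α : ℂ) = 1 := by
    rw [e3']; push_cast; exact inv_mul_cancel₀ cα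
  have E4 : om g' * (x2 * (starRingEnd ℂ) n0) * (C α' : ℂ) = 1 := by
    rw [e4]; push_cast; exact inv_mul_cancel₀ cα'
  have hx0 : x0 ≠ 0 := by rintro rfl; simp at E1
  have hn0 : (starRingEnd ℂ) n0 ≠ 0 := by
    intro h0
    rw [h0] at E3
    simp at E3
  -- relation between `n1` and `n2`
  have R : (starRingEnd ℂ) n2 * (C β' : ℂ) = om (h - h') * ((starRingEnd ℂ) n1 * (C β : ℂ)) := by
    have h1 : om h' * om (h - h') = om h := by rw [← om_add]; congr 1; ring
    have h2 : om h' ≠ 0 := om_ne h'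
    apply mul_left_cancel₀ (mul_ne_zero h2 hx0)
    rw [← h1] at E1
    linear_combination E2 - E1
  have hββ : rep β ≠ rep β' := by
    intro hr
    have hC : C β = C β' := by rw [← C_rep β, ← C_rep β', hr]
    rw [← hC] at R
    have h1 : (starRingEnd ℂ) n2 = om (h - h') * (starRingEnd ℂ) n1 := by
      apply mul_right_cancel₀ cβ
      linear_combination R
    have h2 : n2 = om (-(h - h')) * n1 := by
      have := congrArg (starRingEnd ℂ) h1
      rwa [map_mul, conj_conj, conj_conj, om_conj] at this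
    apply hn (h - h')
    rw [h2, ← mul_assoc, ← om_add, add_neg_cancel, om_zero, one_mul]
  have hαα : rep α ≠ rep α' := by
    intro hr
    have hC : C α = C α' := by rw [← C_rep α, ← C_rep α', hr]
    rw [← hC] at E4
    have h1 : om g * x1 = om g' * x2 := by
      apply mul_right_cancel₀ (mul_ne_zero hn0 cα)
      linear_combination E3 - E4
    apply hx (-g + g')
    rw [om_add]
    linear_combination (om (-g)) * h1 - x1 * om_neg_mul g
  have r1 : (om k11 * (x1 * (starRingEnd ℂ) n1) * (C β : ℂ)).re = C β := by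
    rw [re_mul_ofReal, f11, one_mul]
  have r2 : (om k21 * (x2 * (starRingEnd ℂ) n1) * (C β : ℂ)).re = C β := by
    rw [re_mul_ofReal, f21, one_mul]
  have s1 : (om (k12 - k11 + (h - h')) * (om k11 * (x1 * (starRingEnd ℂ) n1) * (C β : ℂ))).re
      = C β' := by
    have h1 : om (k12 - k11 + (h - h')) * (om k11 * (x1 * (starRingEnd ℂ) n1) * (C β : ℂ))
        = om k12 * (x1 * (starRingEnd ℂ) n2) * (C β' : ℂ) := by
      have h2 : om (k12 - k11 + (h - h')) * om k11 = om k12 * om (h - h') := by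
        rw [← om_add, ← om_add]; congr 1; ring
      linear_combination (x1 * (starRingEnd ℂ) n1 * (C β : ℂ)) * h2 - (om k12 * x1) * R
    rw [h1, re_mul_ofReal, f12, one_mul]
  have s2 : (om (k22 - k21 + (h - h')) * (om k21 * (x2 * (starRingEnd ℂ) n1) * (C β : ℂ))).re
      = C β' := by
    have h1 : om (k22 - k21 + (h - h')) * (om k21 * (x2 * (starRingEnd ℂ) n1) * (C β : ℂ))
        = om k22 * (x2 * (starRingEnd ℂ) n2) * (C β' : ℂ) := by
      have h2 : om (k22 - k21 + (h - h')) * om k21 = om k22 * om (h - h') := by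
        rw [← om_add, ← om_add]; congr 1; ring
      linear_combination (x2 * (starRingEnd ℂ) n1 * (C β : ℂ)) * h2 - (om k22 * x2) * R
    rw [h1, re_mul_ofReal, f22, one_mul]
  have F1 := fval_of hβ hβ' hββ r1 s1
  have F2 := fval_of hβ hβ' hββ r2 s2
  apply caseC_num hα hα' hαα F1 F2
  have N3 := congrArg normSq E3
  have N4 := congrArg normSq E4
  have no : ∀ k, normSq (om k) = 1 := by
    intro k; rw [normSq_eq_norm_sq, norm_om]; norm_num
  simp only [map_mul, no, one_mul, map_one, normSq_ofReal, normSq_conj] at N3 N4 ⊢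
  have hnn : normSq n0 ≠ 0 := by
    intro h0; rw [h0] at N3; simp at N3
  apply mul_right_cancel₀ hnn
  linear_combination (normSq n1 * (C β * C β)) * (N3 - N4)

end Pool.Agent.H33G
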