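import Mathlib
import Pool.Agent.H33G.Core

namespace Pool.Agent.H33G

open Complex

/-- the incidence relation between the orbit of `x i` and the orbit of `n j` -/
def Inc (x n : Fin 3 → ℂ) (i j : Fin 3) (m : ZMod 7) : Prop :=
  (om m * (x i * (starRingEnd ℂ) (n j))).re = 1

open Classical in
noncomputable def cnt (x n : Fin 3 → ℂ) (i j : Fin 3) : ℕ :=
  (Finset.univ.filter (fun m => Inc x n i j m)).card

lemma cnt_pos {x n : Fin 3 → ℂ} {i j : Fin 3} (h : cnt x n i j ≠ 0) : ∃ m, Inc x n i j m := by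
  classical
  unfold cnt at h
  obtain ⟨m, hm⟩ := Finset.card_pos.mp (Nat.pos_of_ne_zero h)
  exact ⟨m, (Finset.mem_filter.mp hm).2⟩

lemma cnt_dbl {x n : Fin 3 → ℂ} {i j : Fin 3} (h : 1 < cnt x n i j) :
    ∃ h d : ZMod 7, d ≠ 0 ∧ om h * (x i * (starRingEnd ℂ) (n j)) = (((C d)⁻¹ : ℝ) : ℂ) := by
  classical
  unfold cnt at h
  obtain ⟨m1, h1, m2, h2, hne⟩ := Finset.one_lt_card.mp h
  exact dbl_of_two hne (Finset.mem_filter.mp h1).2 (Finset.mem_filter.mp h2).2

lemma cnt_le {x n : Fin 3 → ℂ} {i j : Fin 3} : cnt x n i j ≤ 2 := by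
  classical
  by_contra hc
  push Not at hc
  obtain ⟨h, d, hd, e⟩ := cnt_dbl (by omega : 1 < cnt x n i j)
  have hsub : Finset.univ.filter (fun m => Inc x n i j m) ⊆ {h + d, h - d} := by
    intro m hm
    have := (inc_iff e m).mp (Finset.mem_filter.mp hm).2
    simpa using this
  have h1 := Finset.card_le_card hsub
  have h2 := Finset.card_le_two (a := h + d) (b := h - d)
  unfold cnt at hc
  omega

lemma cnt_zero {x n : Fin 3 → ℂ} {i j : Fin 3} (h : cnt x n i j = 0) (m : ZMod 7) :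
    ¬ Inc x n i j m := by
  classical
  intro hm
  unfold cnt at h
  rw [Finset.card_eq_zero] at h
  have : m ∈ Finset.univ.filter (fun m => Inc x n i j m) := by simp [hm]
  rw [h] at this
  simp at this

lemma sum3 (f : Fin 3 → ℕ) (i : Fin 3) : ∑ j, f j = f i + f (i + 1) + f (i + 2) := by
  rw [Fin.sum_univ_three]
  fin_cases i
  · simp
  · show f 0 + f 1 + f 2 = f 1 + f 2 + f 0
    omega
  · show f 0 + f 1 + f 2 = f 2 + f 0 + f 1
    omega

lemma caseB_false {x n : Fin 3 → ℂ} (hx : ∀ i j m, i ≠ j → x i ≠ om m * x j)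
    (hn : ∀ i j m, i ≠ j → n i ≠ om m * n j)
    (hrow : ∀ i, ∑ j, cnt x n i j = 4) (hcol : ∀ j, ∑ i, cnt x n i j = 4)
    (hz : ∀ i j, cnt x n i j ≠ 0) : False := by
  have h2 : ∀ i, ∃ j, cnt x n i j = 2 := by
    intro i
    by_contra hcon
    push Not at hcon
    have h0 := hrow i
    rw [Fin.sum_univ_three] at h0
    have a0 := hcon 0
    have a1 := hcon 1
    have a2 := hcon 2
    have c0 := cnt_le (x := x) (n := n) (i := i) (j := 0)
    have c1 := cnt_le (x := x) (n := n) (i := i) (j := 1)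
    have c2 := cnt_le (x := x) (n := n) (i := i) (j := 2)
    omega
  choose s hs using h2
  have hinj : ∀ i j, i ≠ j → s i ≠ s j := by
    intro i j hij he
    have h1 := hs i
    have h3 := hs j
    rw [← he] at h3
    have hc := hcol (s i)
    have z0 := hz 0 (s i)
    have z1 := hz 1 (s i)
    have z2 := hz 2 (s i)
    rw [Fin.sum_univ_three] at hc
    generalize s i = t at *
    clear he
    fin_cases i <;> fin_cases j <;> simp at hij h1 h3 <;> omega
  have hD : ∀ i, ∃ h d : ZMod 7, d ≠ 0 ∧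
      om h * (x i * (starRingEnd ℂ) (n (s i))) = (((C d)⁻¹ : ℝ) : ℂ) := by
    intro i
    exact cnt_dbl (by rw [hs i]; norm_num)
  choose H D hD0 hDe using hD
  have hK : ∀ i j, ∃ k, Inc x n i (s j) k := fun i j => cnt_pos (hz i (s j))
  choose K hK using hK
  have key : ∀ i j, i ≠ j → TT (D i) (D j)
      ((‖x i‖ / ‖n (s i)‖) / (‖x j‖ / ‖n (s j)‖) + (‖x j‖ / ‖n (s j)‖) / (‖x i‖ / ‖n (s i)‖)) := by
    intro i j hij
    exact pair_TT (hD0 i) (hD0 j) (hDe i) (hDe j) (hK i j) (hK j i) (fun m => hx i j m hij)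
      (fun m => hn (s j) (s i) m (hinj j i hij.symm))
  have hxp : ∀ i, 0 < ‖x i‖ / ‖n (s i)‖ := by
    intro i
    have h1 := hK i i
    unfold Inc at h1
    apply div_pos
    · apply norm_pos_iff.mpr
      intro h0; rw [h0] at h1; simp at h1
    · apply norm_pos_iff.mpr
      intro h0; rw [h0] at h1; simp at h1
  exact caseB_num (key 0 1 (by decide)) (key 1 2 (by decide)) (key 2 0 (by decide))
    (fricke (hxp 0) (hxp 1) (hxp 2))

lemma f3i : ∀ i : Fin 3, i ≠ i + 1 := by decide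
lemma f3j : ∀ i : Fin 3, i + 1 ≠ i := by decide
lemma f3a : ∀ i : Fin 3, i + 1 ≠ i + 2 := by decide
lemma f3b : ∀ i i' : Fin 3, i' = i ∨ i' = i + 1 ∨ i' = i + 2 := by decide
lemma f3c : ∀ i j : Fin 3, i - i + j = j := by decide
lemma f3d : ∀ i j : Fin 3, i + 1 - i + j = j + 1 := by decide
lemma f3e : ∀ i j : Fin 3, i + 2 - i + j = j + 2 := by decide
lemma f3f : ∀ i j : Fin 3, j + i - i = j := by decide
lemma f3g : ∀ i j : Fin 3, j + i - (i + 1) = j + 2 := by decide
lemma f3h : ∀ i j : Fin 3, j + i - (i + 2) = j + 1 := by decide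

lemma caseA_form {x n : Fin 3 → ℂ} (hx : ∀ i j m, i ≠ j → x i ≠ om m * x j)
    (hn : ∀ i j m, i ≠ j → n i ≠ om m * n j)
    (hrow : ∀ i, ∑ j, cnt x n i j = 4) (hcol : ∀ j, ∑ i, cnt x n i j = 4) :
    ∃ s : Equiv.Perm (Fin 3), (∀ i, cnt x n i (s i) = 0) ∧
      (∀ i j, i ≠ j → cnt x n i (s j) = 2) := by
  by_cases hz : ∀ i j, cnt x n i j ≠ 0
  · exact (caseB_false hx hn hrow hcol hz).elim
  · push Not at hz
    obtain ⟨i0, j0, h00⟩ := hz
    have r0 := hrow i0
    have r1 := hrow (i0 + 1)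
    have r2 := hrow (i0 + 2)
    have c0 := hcol j0
    have c1 := hcol (j0 + 1)
    have c2 := hcol (j0 + 2)
    rw [sum3 _ j0] at r0 r1 r2
    rw [sum3 _ i0] at c0 c1 c2
    have le : ∀ i j, cnt x n i j ≤ 2 := fun i j => cnt_le
    have l01 := le i0 (j0 + 1)
    have l02 := le i0 (j0 + 2)
    have l10 := le (i0 + 1) j0
    have l11 := le (i0 + 1) (j0 + 1)
    have l12 := le (i0 + 1) (j0 + 2)
    have l20 := le (i0 + 2) j0
    have l21 := le (i0 + 2) (j0 + 1)
    have l22 := le (i0 + 2) (j0 + 2)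
    have hb : cnt x n (i0 + 1) (j0 + 1) = 1 ∨ cnt x n (i0 + 1) (j0 + 1) = 0 ∨
        cnt x n (i0 + 1) (j0 + 1) = 2 := by omega
    rcases hb with hb | hb | hb
    · exfalso
      obtain ⟨h, β, hβ, e1⟩ := cnt_dbl (x := x) (n := n) (i := i0) (j := j0 + 1) (by omega)
      obtain ⟨h', β', hβ', e2⟩ := cnt_dbl (x := x) (n := n) (i := i0) (j := j0 + 2) (by omega)
      obtain ⟨g, α, hα, e3⟩ := cnt_dbl (x := x) (n := n) (i := i0 + 1) (j := j0) (by omega)
      obtain ⟨g', α', hα', e4⟩ := cnt_dbl (x := x) (n := n) (i := i0 + 2) (j := j0) (by omega)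
      obtain ⟨k11, f11⟩ := cnt_pos (x := x) (n := n) (i := i0 + 1) (j := j0 + 1) (by omega)
      obtain ⟨k12, f12⟩ := cnt_pos (x := x) (n := n) (i := i0 + 1) (j := j0 + 2) (by omega)
      obtain ⟨k21, f21⟩ := cnt_pos (x := x) (n := n) (i := i0 + 2) (j := j0 + 1) (by omega)
      obtain ⟨k22, f22⟩ := cnt_pos (x := x) (n := n) (i := i0 + 2) (j := j0 + 2) (by omega)
      exact caseC_false hβ hβ' hα hα' e1 e2 e3 e4 f11 f12 f21 f22
        (fun m => hx _ _ m (f3a i0)) (fun m => hn _ _ m (f3a j0))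
    · refine ⟨(Equiv.subRight i0).trans (Equiv.addRight j0), ?_, ?_⟩
      · intro i
        simp only [Equiv.trans_apply, Equiv.subRight_apply, Equiv.coe_addRight]
        rcases f3b i0 i with rfl | rfl | rfl
        · rw [f3c]; exact h00
        · rw [f3d]; omega
        · rw [f3e]; omega
      · intro i j hij
        simp only [Equiv.trans_apply, Equiv.subRight_apply, Equiv.coe_addRight]
        rcases f3b i0 i with hi | hi | hi <;> rcases f3b i0 j with hj | hj | hj <;>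
          rw [hi, hj] <;> rw [hi, hj] at hij <;>
          first
          | exact absurd rfl hij
          | (rw [f3c]; omega)
          | (rw [f3d]; omega)
          | (rw [f3e]; omega)
    · refine ⟨Equiv.subLeft (j0 + i0), ?_, ?_⟩
      · intro i
        simp only [Equiv.subLeft_apply]
        rcases f3b i0 i with rfl | rfl | rfl
        · rw [f3f]; exact h00
        · rw [f3g]; omega
        · rw [f3h]; omega
      · intro i j hij
        simp only [Equiv.subLeft_apply]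
        rcases f3b i0 i with hi | hi | hi <;> rcases f3b i0 j with hj | hj | hj <;>
          rw [hi, hj] <;> rw [hi, hj] at hij <;>
          first
          | exact absurd rfl hij
          | (rw [f3f]; omega)
          | (rw [f3g]; omega)
          | (rw [f3h]; omega)

/-- the structure in the remaining case -/
lemma caseA_struct {x p : Fin 3 → ℂ} (hx : ∀ i j m, i ≠ j → x i ≠ om m * x j)
    (hp : ∀ i j m, i ≠ j → p i ≠ om m * p j) (h0 : ∀ i, cnt x p i i = 0)
    (h2 : ∀ i j, i ≠ j → cnt x p i j = 2) :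
    ∃ (D : Fin 3 → Fin 3 → ZMod 7) (u v : Fin 3 → ZMod 7),
      (∀ i j m, Inc x p i j m ↔ i ≠ j ∧ (m = u i - v j + D i j ∨ m = u i - v j - D i j)) ∧
      D 0 1 = D 1 0 ∧ D 1 2 = D 2 1 ∧ D 2 0 = D 0 2 ∧ D 0 1 ≠ D 1 2 ∧ D 1 2 ≠ D 2 0 ∧
      D 2 0 ≠ D 0 1 ∧ (∀ i j, i ≠ j → D i j = 1 ∨ D i j = 2 ∨ D i j = 3) := by
  have hE : ∀ i j, ∃ h d : ZMod 7, i ≠ j → (d ≠ 0 ∧
      om h * (x i * (starRingEnd ℂ) (p j)) = (((C d)⁻¹ : ℝ) : ℂ)) := by
    intro i j
    by_cases hij : i = j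
    · exact ⟨0, 0, fun h => absurd hij h⟩
    · obtain ⟨h, d, hd, e⟩ := cnt_dbl (by rw [h2 i j hij]; norm_num : 1 < cnt x p i j)
      exact ⟨h, d, fun _ => ⟨hd, e⟩⟩
  choose h d hE using hE
  have cne : ∀ i j, (C (d i j) : ℂ) ≠ 0 := fun i j => by exact_mod_cast C_ne _
  have E : ∀ i j, i ≠ j → om (h i j) * (x i * (starRingEnd ℂ) (p j)) * (C (d i j) : ℂ) = 1 := by
    intro i j hij
    rw [(hE i j hij).2]; push_cast; exact inv_mul_cancel₀ (cne i j)
  have hx0 : ∀ i, x i ≠ 0 := by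
    intro i h0
    have := E i (i + 1) (f3i i)
    rw [h0] at this; simp at this
  have hp0 : ∀ j, (starRingEnd ℂ) (p j) ≠ 0 := by
    intro j h0
    have := E (j + 1) j (f3j j)
    rw [h0] at this; simp at this
  -- rows
  have row : ∀ i j k, i ≠ j → i ≠ k → j ≠ k → rep (d i j) ≠ rep (d i k) := by
    intro i j k hij hik hjk hr
    have hC : C (d i j) = C (d i k) := by rw [← C_rep (d i j), ← C_rep (d i k), hr]
    have e1 := E i j hij
    have e2 := E i k hik
    rw [← hC] at e2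
    have e3 : om (h i j) * (starRingEnd ℂ) (p j) = om (h i k) * (starRingEnd ℂ) (p k) := by
      apply mul_left_cancel₀ (mul_ne_zero (hx0 i) (cne i j))
      linear_combination e1 - e2
    have e4 : (starRingEnd ℂ) (p j) = om (-h i j + h i k) * (starRingEnd ℂ) (p k) := by
      rw [om_add]
      linear_combination (om (-h i j)) * e3 - ((starRingEnd ℂ) (p j)) * om_neg_mul (h i j)
    have e5 := congrArg (starRingEnd ℂ) e4
    rw [map_mul, conj_conj, conj_conj, om_conj] at e5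
    exact hp j k _ hjk e5
  have col : ∀ i j k, i ≠ k → j ≠ k → i ≠ j → rep (d i k) ≠ rep (d j k) := by
    intro i j k hik hjk hij hr
    have hC : C (d i k) = C (d j k) := by rw [← C_rep (d i k), ← C_rep (d j k), hr]
    have e1 := E i k hik
    have e2 := E j k hjk
    rw [← hC] at e2
    have e3 : om (h i k) * x i = om (h j k) * x j := by
      apply mul_left_cancel₀ (mul_ne_zero (hp0 k) (cne i k))
      linear_combination e1 - e2
    apply hx i j (-h i k + h j k) hij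
    rw [om_add]
    linear_combination (om (-h i k)) * e3 - x i * om_neg_mul (h i k)
  -- the product relation
  have P1 : om (h 0 1 + h 1 2 + h 2 0) * (x 0 * x 1 * x 2 * ((starRingEnd ℂ) (p 0) *
      (starRingEnd ℂ) (p 1) * (starRingEnd ℂ) (p 2))) * ((C (d 0 1) * C (d 1 2) * C (d 2 0) : ℝ) : ℂ)
      = 1 := by
    have e1 := E 0 1 (by decide)
    have e2 := E 1 2 (by decide)
    have e3 := E 2 0 (by decide)
    rw [om_add, om_add]
    push_cast
    calc _ = (om (h 0 1) * (x 0 * (starRingEnd ℂ) (p 1)) * (C (d 0 1) : ℂ)) *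
        (om (h 1 2) * (x 1 * (starRingEnd ℂ) (p 2)) * (C (d 1 2) : ℂ)) *
        (om (h 2 0) * (x 2 * (starRingEnd ℂ) (p 0)) * (C (d 2 0) : ℂ)) := by ring
      _ = 1 := by rw [e1, e2, e3]; ring
  have P2 : om (h 0 2 + h 1 0 + h 2 1) * (x 0 * x 1 * x 2 * ((starRingEnd ℂ) (p 0) *
      (starRingEnd ℂ) (p 1) * (starRingEnd ℂ) (p 2))) * ((C (d 0 2) * C (d 1 0) * C (d 2 1) : ℝ) : ℂ)
      = 1 := by
    have e1 := E 0 2 (by decide)
    have e2 := E 1 0 (by decide)
    have e3 := E 2 1 (by decide)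
    rw [om_add, om_add]
    push_cast
    calc _ = (om (h 0 2) * (x 0 * (starRingEnd ℂ) (p 2)) * (C (d 0 2) : ℂ)) *
        (om (h 1 0) * (x 1 * (starRingEnd ℂ) (p 0)) * (C (d 1 0) : ℂ)) *
        (om (h 2 1) * (x 2 * (starRingEnd ℂ) (p 1)) * (C (d 2 1) : ℂ)) := by ring
      _ = 1 := by rw [e1, e2, e3]; ring
  have hX : x 0 * x 1 * x 2 * ((starRingEnd ℂ) (p 0) * (starRingEnd ℂ) (p 1) *
      (starRingEnd ℂ) (p 2)) ≠ 0 :=
    mul_ne_zero (mul_ne_zero (mul_ne_zero (hx0 0) (hx0 1)) (hx0 2))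
      (mul_ne_zero (mul_ne_zero (hp0 0) (hp0 1)) (hp0 2))
  have P3 : om ((h 0 1 + h 1 2 + h 2 0) - (h 0 2 + h 1 0 + h 2 1)) *
      ((C (d 0 1) * C (d 1 2) * C (d 2 0) : ℝ) : ℂ)
      = ((C (d 0 2) * C (d 1 0) * C (d 2 1) : ℝ) : ℂ) := by
    have h1 : om (h 0 2 + h 1 0 + h 2 1) * om ((h 0 1 + h 1 2 + h 2 0) - (h 0 2 + h 1 0 + h 2 1))
        = om (h 0 1 + h 1 2 + h 2 0) := by
      rw [← om_add]; congr 1; ring
    rw [← h1] at P1
    apply mul_left_cancel₀ (mul_ne_zero (om_ne (h 0 2 + h 1 0 + h 2 1)) hX)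
    linear_combination P1 - P2
  have hcp : C (d 0 1) * C (d 1 2) * C (d 2 0) ≠ 0 :=
    mul_ne_zero (mul_ne_zero (C_ne _) (C_ne _)) (C_ne _)
  have hH : (h 0 1 + h 1 2 + h 2 0) - (h 0 2 + h 1 0 + h 2 1) = 0 := by
    by_contra hne
    have him := congrArg Complex.im P3
    rw [im_mul_ofReal, ofReal_im] at him
    exact (mul_ne_zero (S_ne _ hne) hcp) him
  rw [hH, om_zero, one_mul] at P3
  have P4 : C (d 0 1) * C (d 1 2) * C (d 2 0) = C (d 0 2) * C (d 1 0) * C (d 2 1) := by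
    exact_mod_cast P3
  rw [← C_rep (d 0 1), ← C_rep (d 1 2), ← C_rep (d 2 0), ← C_rep (d 0 2), ← C_rep (d 1 0),
    ← C_rep (d 2 1)] at P4
  have rc : ∀ i j, i ≠ j → rep (d i j) = 1 ∨ rep (d i j) = 2 ∨ rep (d i j) = 3 :=
    fun i j hij => rep_cases _ (hE i j hij).1
  obtain ⟨q1, q2, q3, q4, q5, q6⟩ := caseA_num (rc 0 1 (by decide)) (rc 1 2 (by decide))
    (rc 2 0 (by decide)) (rc 0 2 (by decide)) (rc 1 0 (by decide)) (rc 2 1 (by decide))
    (row 0 1 2 (by decide) (by decide) (by decide)) (row 1 2 0 (by decide) (by decide) (by decide))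
    (row 2 0 1 (by decide) (by decide) (by decide)) (col 2 1 0 (by decide) (by decide) (by decide))
    (col 0 2 1 (by decide) (by decide) (by decide)) (col 1 0 2 (by decide) (by decide) (by decide))
    P4
  refine ⟨fun i j => rep (d i j), fun i => if i = 0 then 0 else if i = 1 then h 1 2 - h 0 2
      else h 2 1 - h 0 1, fun j => if j = 0 then h 1 2 - h 0 2 - h 1 0 else if j = 1 then - h 0 1
      else - h 0 2, ?_, q1, q2, q3, q4, q5, q6, rc⟩
  intro i j m
  by_cases hij : i = j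
  · constructor
    · intro hm
      subst hij
      exact absurd hm (cnt_zero (h0 i) m)
    · rintro ⟨h1, _⟩
      exact absurd hij h1
  · have hinc : Inc x p i j m ↔ m = h i j + d i j ∨ m = h i j - d i j := inc_iff (hE i j hij).2 m
    have hrep : rep (d i j) = d i j ∨ rep (d i j) = - d i j := by
      unfold rep; split_ifs
      · left; rfl
      · right; rfl
    have hsum : (if i = 0 then (0 : ZMod 7) else if i = 1 then h 1 2 - h 0 2 else h 2 1 - h 0 1)
        - (if j = 0 then h 1 2 - h 0 2 - h 1 0 else if j = 1 then - h 0 1 else - h 0 2) = h i j := by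
      fin_cases i <;> fin_cases j <;> simp at hij ⊢
      linear_combination (-1 : ZMod 7) * hH
    simp only [hinc, hsum]
    constructor
    · intro hm
      refine ⟨hij, ?_⟩
      rcases hrep with hr | hr <;> rw [hr]
      · exact hm
      · rcases hm with hm | hm
        · right; rw [hm]; ring
        · left; rw [hm]; ring
    · rintro ⟨_, hm⟩
      rcases hrep with hr | hr <;> rw [hr] at hm
      · exact hm
      · rcases hm with hm | hm
        · right; rw [hm]; ring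
        · left; rw [hm]; ring

/-- the canonical differences -/
def dl (i j : Fin 3) : ZMod 7 := ((4 - i.val - j.val : ℕ) : ZMod 7)

lemma relabel_aux (D : Fin 3 → Fin 3 → ZMod 7) (a b c : Fin 3) (t : Equiv.Perm (Fin 3))
    (h0 : t 0 = a) (h1 : t 1 = b) (h2 : t 2 = c) (e1 : D a b = 3) (e2 : D b a = 3)
    (e3 : D b c = 1) (e4 : D c b = 1) (e5 : D c a = 2) (e6 : D a c = 2) :
    ∀ i j, i ≠ j → D (t i) (t j) = dl i j := by
  have k1 : D (t 0) (t 1) = dl 0 1 := by rw [h0, h1, e1]; decide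
  have k2 : D (t 1) (t 0) = dl 1 0 := by rw [h0, h1, e2]; decide
  have k3 : D (t 1) (t 2) = dl 1 2 := by rw [h1, h2, e3]; decide
  have k4 : D (t 2) (t 1) = dl 2 1 := by rw [h1, h2, e4]; decide
  have k5 : D (t 2) (t 0) = dl 2 0 := by rw [h0, h2, e5]; decide
  have k6 : D (t 0) (t 2) = dl 0 2 := by rw [h0, h2, e6]; decide
  intro i j hij
  fin_cases i <;> fin_cases j <;>
    first
    | exact absurd rfl hij
    | exact k1
    | exact k2
    | exact k3
    | exact k4
    | exact k5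
    | exact k6

lemma relabel (D : Fin 3 → Fin 3 → ZMod 7) (s1 : D 0 1 = D 1 0) (s2 : D 1 2 = D 2 1)
    (s3 : D 2 0 = D 0 2) (n1 : D 0 1 ≠ D 1 2) (n2 : D 1 2 ≠ D 2 0) (n3 : D 2 0 ≠ D 0 1)
    (hr : ∀ i j, i ≠ j → D i j = 1 ∨ D i j = 2 ∨ D i j = 3) :
    ∃ t : Equiv.Perm (Fin 3), ∀ i j, i ≠ j → D (t i) (t j) = dl i j := by
  rcases hr 0 1 (by decide) with hp | hp | hp <;> rcases hr 1 2 (by decide) with hq | hq | hq <;>
    rcases hr 2 0 (by decide) with hw | hw | hw <;>
    rw [hp] at s1 n1 n3 <;> rw [hq] at s2 n1 n2 <;> rw [hw] at s3 n2 n3 <;>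
    first
    | exact absurd rfl n1
    | exact absurd rfl n2
    | exact absurd rfl n3
    | skip
  · exact ⟨Equiv.swap 0 1 * Equiv.swap 0 2, relabel_aux D 2 0 1 _ (by decide) (by decide) (by decide) hw s3.symm hp s1.symm hq s2.symm⟩
  · exact ⟨Equiv.swap 0 2, relabel_aux D 2 1 0 _ (by decide) (by decide) (by decide) s2.symm hq s1.symm hp s3.symm hw⟩
  · exact ⟨Equiv.swap 1 2, relabel_aux D 0 2 1 _ (by decide) (by decide) (by decide) s3.symm hw s2.symm hq s1.symm hp⟩
  · exact ⟨Equiv.swap 0 1 * Equiv.swap 1 2, relabel_aux D 1 2 0 _ (by decide) (by decide) (by decide) hq s2.symm hw s3.symm hp s1.symm⟩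
  · exact ⟨1, relabel_aux D 0 1 2 _ (by decide) (by decide) (by decide) hp s1.symm hq s2.symm hw s3.symm⟩
  · exact ⟨Equiv.swap 0 1, relabel_aux D 1 0 2 _ (by decide) (by decide) (by decide) s1.symm hp s3.symm hw s2.symm hq⟩

end Pool.Agent.H33G
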