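import Mathlib
import Pool.Agent.H33G.Poly

namespace Pool.Agent.H33G

open Complex

lemma orb_of_pow {z w : ℂ} (hw : w ≠ 0) (h : z ^ 7 = w ^ 7) : ∃ m : ZMod 7, z = om m * w := by
  have h1 : (z / w) ^ 7 = 1 := by rw [div_pow, h, div_self (pow_ne_zero _ hw)]
  obtain ⟨i, hi, hi2⟩ := xi_prim.eq_pow_of_pow_eq_one h1
  refine ⟨(i : ZMod 7), ?_⟩
  unfold om
  rw [ZMod.val_natCast, Nat.mod_eq_of_lt hi, hi2]
  field_simp

lemma om_pow (m : ZMod 7) : om m ^ 7 = 1 := by
  unfold om; rw [← pow_mul, mul_comm, pow_mul, xi_pow, one_pow]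

lemma om_mem {S : Set ℂ} (h : ∀ z ∈ S, xi * z ∈ S) (m : ZMod 7) : ∀ z ∈ S, om m * z ∈ S := by
  have : ∀ n : ℕ, ∀ z ∈ S, xi ^ n * z ∈ S := by
    intro n
    induction n with
    | zero => intro z hz; simpa using hz
    | succ n ih => intro z hz; rw [pow_succ, mul_assoc]; exact ih _ (h z hz)
  exact this m.val

lemma om_inj {m m' : ZMod 7} (h : om m = om m') : m = m' := by
  by_contra hne
  have h1 : om (m - m') = 1 := by
    have := om_neg_mul m'
    rw [sub_eq_add_neg, om_add, h, mul_comm]; exact this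
  have h2 : S (m - m') = 0 := by unfold S; rw [h1]; simp
  exact S_ne _ (sub_ne_zero.mpr hne) h2

lemma om_shift {a b : ZMod 7} {z w : ℂ} (h : om a * z = om b * w) : z = om (b - a) * w := by
  have h1 := om_neg_mul a
  calc z = om (-a) * om a * z := by rw [h1, one_mul]
    _ = om (-a) * (om b * w) := by rw [mul_assoc, h]
    _ = om (b - a) * w := by rw [← mul_assoc, ← om_add]; congr 2; ring

lemma orb_eq {x : Fin 3 → ℂ} (hx0 : ∀ i, x i ≠ 0) (hx : ∀ i j m, i ≠ j → x i ≠ om m * x j)
    {i j : Fin 3} {a b : ZMod 7} (h : om a * x i = om b * x j) : i = j ∧ a = b := by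
  have hij : i = j := by
    by_contra hne
    exact hx i j _ hne (om_shift h)
  subst hij
  exact ⟨rfl, om_inj (mul_right_cancel₀ (hx0 i) h)⟩

lemma orbits {S : Set ℂ} (hS : S.ncard = 21) (h0 : (0:ℂ) ∉ S) (h : ∀ z ∈ S, xi * z ∈ S) :
    ∃ x : Fin 3 → ℂ, (∀ i, x i ∈ S) ∧ (∀ z ∈ S, ∃ i m, z = om m * x i) ∧
      ∀ i j m, i ≠ j → x i ≠ om m * x j := by
  classical
  have hSf : S.Finite := Set.finite_of_ncard_ne_zero (by rw [hS]; norm_num)
  have hfib : ∀ w ∈ hSf.toFinset.image (fun z => z ^ 7),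
      (hSf.toFinset.filter (fun z => z ^ 7 = w)).card = 7 := by
    intro w hw
    rw [Finset.mem_image] at hw
    obtain ⟨p, hp, rfl⟩ := hw
    have hpP : p ∈ S := hSf.mem_toFinset.mp hp
    have hpc : p ≠ 0 := fun h => h0 (h ▸ hpP)
    have himg : hSf.toFinset.filter (fun z => z ^ 7 = p ^ 7)
        = Finset.univ.image (fun m : ZMod 7 => om m * p) := by
      ext z
      simp only [Finset.mem_filter, Set.Finite.mem_toFinset, Finset.mem_image, Finset.mem_univ,
        true_and]
      constructor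
      · rintro ⟨_, hz⟩
        obtain ⟨m, hm⟩ := orb_of_pow hpc hz
        exact ⟨m, hm.symm⟩
      · rintro ⟨m, rfl⟩
        exact ⟨om_mem h m p hpP, by rw [mul_pow, om_pow, one_mul]⟩
    rw [himg, Finset.card_image_of_injective, Finset.card_univ, ZMod.card]
    intro m m' hmm
    exact om_inj (mul_right_cancel₀ hpc hmm)
  have hcard : hSf.toFinset.card = 21 := by rw [← Set.ncard_eq_toFinset_card S hSf, hS]
  have hsum : 21 = (hSf.toFinset.image (fun z => z ^ 7)).card * 7 := by
    have h1 := Finset.card_eq_sum_card_image (fun z : ℂ => z ^ 7) hSf.toFinset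
    rw [Finset.sum_congr rfl hfib, Finset.sum_const, hcard, smul_eq_mul] at h1
    exact h1
  have h3 : (hSf.toFinset.image (fun z => z ^ 7)).card = 3 := by omega
  let e := Finset.equivFinOfCardEq h3
  have hx : ∀ i : Fin 3, ∃ z ∈ S, z ^ 7 = ((e.symm i).1 : ℂ) := by
    intro i
    have := (e.symm i).2
    rw [Finset.mem_image] at this
    obtain ⟨z, hz, hz2⟩ := this
    exact ⟨z, hSf.mem_toFinset.mp hz, hz2⟩
  choose x hxS hx7 using hx
  refine ⟨x, hxS, ?_, ?_⟩
  · intro z hz
    have hmem : z ^ 7 ∈ hSf.toFinset.image (fun z => z ^ 7) :=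
      Finset.mem_image_of_mem _ (hSf.mem_toFinset.mpr hz)
    refine ⟨e ⟨z ^ 7, hmem⟩, ?_⟩
    apply orb_of_pow
    · exact fun h => h0 (h ▸ hxS _)
    · rw [hx7, Equiv.symm_apply_apply]
  · intro i j m hij hcon
    apply hij
    have h1 : x i ^ 7 = x j ^ 7 := by rw [hcon, mul_pow, om_pow, one_mul]
    rw [hx7, hx7] at h1
    exact e.symm.injective (Subtype.ext h1)

/-- the line with normal vector `n` relative to the centre `c` -/
def ell (c n : ℂ) : Set ℂ := {z | ((z - c) * (starRingEnd ℂ) n).re = 1}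

lemma mem_ell {c n z : ℂ} : z ∈ ell c n ↔ ((z - c) * (starRingEnd ℂ) n).re = 1 := Iff.rfl

lemma ell_inj {c n n' : ℂ} (hn : n ≠ 0) (h : ell c n = ell c n') : n = n' := by
  have hc : (starRingEnd ℂ) n ≠ 0 := by
    intro h0
    apply hn
    have := congrArg (starRingEnd ℂ) h0
    simpa using this
  have h1 : c + 1 / (starRingEnd ℂ) n ∈ ell c n := by
    rw [mem_ell, add_sub_cancel_left, div_mul_cancel₀ _ hc]; simp
  have h2 : c + (1 + I) / (starRingEnd ℂ) n ∈ ell c n := by
    rw [mem_ell, add_sub_cancel_left, div_mul_cancel₀ _ hc]; simp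
  rw [h, mem_ell, add_sub_cancel_left] at h1 h2
  set q := (starRingEnd ℂ) n' / (starRingEnd ℂ) n with hq
  have e1 : 1 / (starRingEnd ℂ) n * (starRingEnd ℂ) n' = q := by rw [hq]; ring
  have e2 : (1 + I) / (starRingEnd ℂ) n * (starRingEnd ℂ) n' = (1 + I) * q := by rw [hq]; ring
  rw [e1] at h1
  rw [e2] at h2
  simp only [mul_re, add_re, one_re, I_re, add_im, one_im, I_im] at h2
  have hq1 : q = 1 := by
    apply Complex.ext
    · rw [h1, one_re]
    · rw [one_im]; linarith
  have h3 : (starRingEnd ℂ) n' = (starRingEnd ℂ) n := by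
    rw [hq, div_eq_one_iff_eq hc] at hq1; exact hq1
  have := congrArg (starRingEnd ℂ) h3
  simp only [conj_conj] at this
  exact this.symm

lemma ell_rot (c n : ℂ) : (fun z => c + xi * (z - c)) '' (ell c n) = ell c (xi * n) := by
  have hx : xi = om 1 := by
    unfold om
    rw [show (1 : ZMod 7).val = 1 by decide, pow_one]
  have h1 := om_neg_mul 1
  have h2 := om_conj 1
  rw [← hx] at h1 h2
  ext w
  constructor
  · rintro ⟨z, hz, rfl⟩
    rw [mem_ell] at hz ⊢
    rw [map_mul, h2, add_sub_cancel_left]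
    have : xi * (z - c) * (om (-1) * (starRingEnd ℂ) n) = (z - c) * (starRingEnd ℂ) n := by
      linear_combination (z - c) * (starRingEnd ℂ) n * h1
    rw [this]; exact hz
  · intro hw
    refine ⟨c + om (-1) * (w - c), ?_, ?_⟩
    · rw [mem_ell] at hw ⊢
      rw [map_mul, h2] at hw
      rw [add_sub_cancel_left]
      have : om (-1) * (w - c) * (starRingEnd ℂ) n = (w - c) * (om (-1) * (starRingEnd ℂ) n) := by
        ring
      rw [this]; exact hw
    · show c + xi * (c + om (-1) * (w - c) - c) = w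
      linear_combination (w - c) * h1

lemma ell_of_line {l : Set ℂ} {a b c : ℂ} (hb : b ≠ 0)
    (hl : l = {z | ∃ t : ℝ, z = a + (t : ℂ) * b}) (hc : c ∉ l) : ∃ n : ℂ, n ≠ 0 ∧ l = ell c n := by
  have hB : b.re * b.re + b.im * b.im ≠ 0 := by
    have := normSq_pos.mpr hb
    rw [normSq_apply] at this
    exact this.ne'
  have hB2 : b.re ^ 2 + b.im ^ 2 ≠ 0 := by rw [pow_two, pow_two]; exact hB
  -- z is on the line iff the cross product vanishes
  have hcross : ∀ z : ℂ, z ∈ l ↔ (z.im - a.im) * b.re - (z.re - a.re) * b.im = 0 := by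
    intro z
    rw [hl]
    constructor
    · rintro ⟨t, rfl⟩
      simp only [add_re, add_im, mul_re, mul_im, ofReal_re, ofReal_im]
      ring
    · intro hz
      refine ⟨((z.re - a.re) * b.re + (z.im - a.im) * b.im) / (b.re ^ 2 + b.im ^ 2), ?_⟩
      apply Complex.ext
      · simp only [add_re, mul_re, ofReal_re, ofReal_im]
        field_simp
        linear_combination (-b.im) * hz
      · simp only [add_im, mul_im, ofReal_re, ofReal_im]
        field_simp
        linear_combination (b.re) * hz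
  have hD : (c.im - a.im) * b.re - (c.re - a.re) * b.im ≠ 0 := fun h0 => hc ((hcross c).mpr h0)
  set D := (a.im - c.im) * b.re - (a.re - c.re) * b.im with hDdef
  have hD' : D ≠ 0 := by
    intro h0
    apply hD
    rw [hDdef] at h0
    linarith
  refine ⟨⟨-b.im / D, b.re / D⟩, ?_, ?_⟩
  · intro h0
    have h1 := congrArg Complex.re h0
    have h2 := congrArg Complex.im h0
    simp only [zero_re, zero_im] at h1 h2
    rw [div_eq_zero_iff] at h1 h2
    apply hb
    apply Complex.ext
    · rw [zero_re]; exact h2.resolve_right hD'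
    · rw [zero_im]; have := h1.resolve_right hD'; linarith
  · ext z
    rw [hcross, mem_ell]
    simp only [mul_re, sub_re, sub_im, conj_re, conj_im]
    constructor
    · intro hz
      field_simp
      rw [hDdef]
      linarith
    · intro hz
      field_simp at hz
      rw [hDdef] at hz
      linarith

lemma ncard_prod (Q : Fin 3 → ZMod 7 → Prop) [∀ j m, Decidable (Q j m)] :
    {q : Fin 3 × ZMod 7 | Q q.1 q.2}.ncard
      = ∑ j, (Finset.univ.filter (fun m => Q j m)).card := by
  have h1 : {q : Fin 3 × ZMod 7 | Q q.1 q.2}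
      = ((Finset.univ.filter (fun q : Fin 3 × ZMod 7 => Q q.1 q.2) :
          Finset (Fin 3 × ZMod 7)) : Set (Fin 3 × ZMod 7)) := by
    ext q; simp
  rw [h1, Set.ncard_coe_finset, Finset.card_filter, Fintype.sum_prod_type]
  apply Finset.sum_congr rfl
  intro j _
  rw [Finset.card_filter]

end Pool.Agent.H33G
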