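import Mathlib
import Pool.Agent.H33G.Cfg

namespace Pool.Agent.H33G

open Complex

lemma line_eq {l : Set ℂ} (hl : IsLine l) {x y : ℂ} (hx : x ∈ l) (hy : y ∈ l) (hxy : x ≠ y) :
    l = {z | ∃ t : ℝ, z = x + (t : ℂ) * (y - x)} := by
  obtain ⟨a, b, hb, rfl⟩ := hl
  obtain ⟨s, rfl⟩ := hx
  obtain ⟨t, rfl⟩ := hy
  have hst : s - t ≠ 0 := by
    intro h
    apply hxy
    have : s = t := by linarith
    rw [this]
  have hts : ((t : ℂ) - (s : ℂ)) ≠ 0 := by
    intro h
    apply hst
    have h2 : ((t - s : ℝ) : ℂ) = 0 := by push_cast; exact h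
    have h3 : t - s = 0 := by exact_mod_cast h2
    linarith
  ext z
  constructor
  · rintro ⟨r, rfl⟩
    refine ⟨(r - s) / (t - s), ?_⟩
    push_cast
    field_simp
    ring
  · rintro ⟨r, rfl⟩
    refine ⟨s + r * (t - s), ?_⟩
    push_cast
    ring

lemma line_unique {l l' : Set ℂ} (hl : IsLine l) (hl' : IsLine l') {x y : ℂ} (hx : x ∈ l)
    (hy : y ∈ l) (hx' : x ∈ l') (hy' : y ∈ l') (hxy : x ≠ y) : l = l' := by
  rw [line_eq hl hx hy hxy, line_eq hl' hx' hy' hxy]

lemma no_translation {P : Set ℂ} (hf : P.Finite) (hn : P.Nonempty) {b : ℂ} (hb : b ≠ 0)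
    (h : ∀ p ∈ P, p + b ∈ P) : False := by
  obtain ⟨p, hp, hmax⟩ := Set.exists_max_image P (fun z => z.re * b.re + z.im * b.im) hf hn
  have h1 := hmax (p + b) (h p hp)
  simp only [add_re, add_im] at h1
  have h2 : 0 < b.re * b.re + b.im * b.im := by
    have := normSq_pos.mpr hb
    rwa [normSq_apply] at this
  nlinarith

lemma modEq_fixed {α : Type*} (S : Set α) (hS : S.Finite) (f : α → α)
    (hf : ∀ x ∈ S, f x ∈ S) (q : ℕ) (hq : q.Prime) (hit : ∀ x ∈ S, f^[q] x = x) :
    S.ncard ≡ {x | x ∈ S ∧ f x = x}.ncard [MOD q] := by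
  classical
  have : Fintype S := hS.fintype
  have := Fact.mk hq
  let F : Function.End S := fun x => ⟨f x.1, hf _ x.2⟩
  have hpow : ∀ n : ℕ, ∀ x : S, ((F ^ n) x).1 = f^[n] x.1 := by
    intro n
    induction n with
    | zero => intro x; rw [pow_zero]; rfl
    | succ n ih =>
      intro x
      rw [pow_succ, Function.iterate_succ_apply]
      exact ih (F x)
  have hF : F ^ q ^ 1 = 1 := by
    rw [pow_one]
    funext x
    apply Subtype.ext
    rw [hpow q x]
    exact hit x.1 x.2
  have key := Equiv.Perm.card_fixedPoints_modEq (f := F) (p := q) (n := 1) hF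
  have h1 : Fintype.card S = S.ncard := by
    rw [← Nat.card_eq_fintype_card]; rfl
  have h2 : Fintype.card (Function.fixedPoints F) = {x | x ∈ S ∧ f x = x}.ncard := by
    rw [← Nat.card_eq_fintype_card]
    have h3 : {x | x ∈ S ∧ f x = x} = Subtype.val '' (Function.fixedPoints F) := by
      ext x
      constructor
      · rintro ⟨hx, hfx⟩
        exact ⟨⟨x, hx⟩, Subtype.ext hfx, rfl⟩
      · rintro ⟨y, hy, rfl⟩
        exact ⟨y.2, congrArg Subtype.val hy⟩
    rw [h3, Set.ncard_image_of_injective _ Subtype.val_injective]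
    rfl
  rw [h1, h2] at key
  exact key

/-! ### Rotations -/

lemma rot_iterate {g : ℂ → ℂ} {c a : ℂ} (hg : ∀ z, g z = c + a * (z - c)) (n : ℕ) (z : ℂ) :
    g^[n] z = c + a ^ n * (z - c) := by
  induction n generalizing z with
  | zero => simp
  | succ n ih =>
    rw [Function.iterate_succ_apply, ih, hg]
    ring

lemma iterate_image {g : ℂ → ℂ} {L : Set (Set ℂ)} (hL : ∀ l ∈ L, g '' l ∈ L) (n : ℕ) :
    ∀ l ∈ L, g^[n] '' l ∈ L := by
  induction n with
  | zero => intro l hl; simpa using hl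
  | succ n ih =>
    intro l hl
    rw [Function.iterate_succ, Set.image_comp]
    exact ih _ (hL l hl)

lemma iterate_mem {g : ℂ → ℂ} {P : Set ℂ} (hP : ∀ p ∈ P, g p ∈ P) (n : ℕ) :
    ∀ p ∈ P, g^[n] p ∈ P := by
  induction n with
  | zero => intro p hp; simpa using hp
  | succ n ih =>
    intro p hp
    rw [Function.iterate_succ_apply]
    exact ih _ (hP p hp)

/-- a rotation which maps a line to itself is a half-turn or the identity -/
lemma rot_real {l : Set ℂ} (hl : IsLine l) {c s : ℂ}
    (h : (fun z => c + s * (z - c)) '' l = l) : ∃ r : ℝ, s = (r : ℂ) := by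
  obtain ⟨a, b, hb, rfl⟩ := hl
  have h0 : c + s * (a - c) ∈ {z | ∃ t : ℝ, z = a + (t : ℂ) * b} := by
    rw [← h]; exact ⟨a, ⟨0, by simp⟩, rfl⟩
  have h1 : c + s * (a + b - c) ∈ {z | ∃ t : ℝ, z = a + (t : ℂ) * b} := by
    rw [← h]; exact ⟨a + b, ⟨1, by simp⟩, rfl⟩
  obtain ⟨t0, h0⟩ := h0
  obtain ⟨t1, h1⟩ := h1
  refine ⟨t1 - t0, ?_⟩
  have h2 : s * b = ((t1 : ℂ) - (t0 : ℂ)) * b := by linear_combination h1 - h0
  push_cast
  exact mul_right_cancel₀ hb h2

/-- the half-turn about `c` maps a line to itself iff it contains `c` -/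
lemma half_turn {l : Set ℂ} (hl : IsLine l) {c : ℂ} :
    (fun z => c + (-1 : ℂ) * (z - c)) '' l = l ↔ c ∈ l := by
  obtain ⟨a, b, hb, rfl⟩ := hl
  constructor
  · intro h
    have h0 : c + (-1 : ℂ) * (a - c) ∈ {z | ∃ t : ℝ, z = a + (t : ℂ) * b} := by
      rw [← h]; exact ⟨a, ⟨0, by simp⟩, rfl⟩
    obtain ⟨t, ht⟩ := h0
    refine ⟨t / 2, ?_⟩
    push_cast
    linear_combination ht / 2
  · rintro ⟨t0, ht0⟩
    ext z
    constructor
    · rintro ⟨w, ⟨t, rfl⟩, rfl⟩
      refine ⟨2 * t0 - t, ?_⟩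
      push_cast
      linear_combination 2 * ht0
    · rintro ⟨t, rfl⟩
      refine ⟨a + ((2 * t0 - t : ℝ) : ℂ) * b, ⟨_, rfl⟩, ?_⟩
      push_cast
      linear_combination 2 * ht0

/-- three different points of a line do not lie on a circle -/
lemma line_circle {l : Set ℂ} (hl : IsLine l) {c x y z : ℂ} (hx : x ∈ l) (hy : y ∈ l)
    (hz : z ∈ l) (hxy : x ≠ y) (hxz : x ≠ z) (hyz : y ≠ z)
    (h1 : normSq (x - c) = normSq (y - c)) (h2 : normSq (x - c) = normSq (z - c)) : False := by
  obtain ⟨a, b, hb, rfl⟩ := hl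
  obtain ⟨r, rfl⟩ := hx
  obtain ⟨s, rfl⟩ := hy
  obtain ⟨t, rfl⟩ := hz
  have hrs : r - s ≠ 0 := by
    intro h; apply hxy; rw [show r = s by linarith]
  have hrt : r - t ≠ 0 := by
    intro h; apply hxz; rw [show r = t by linarith]
  have hst : s - t ≠ 0 := by
    intro h; apply hyz; rw [show s = t by linarith]
  have hB : b.re * b.re + b.im * b.im ≠ 0 := by
    have := normSq_pos.mpr hb
    rw [normSq_apply] at this
    exact this.ne'
  simp only [normSq_apply, sub_re, sub_im, add_re, add_im, mul_re, mul_im, ofReal_re, ofReal_im,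
    zero_mul, sub_zero, add_zero] at h1 h2
  have e1 : (r - s) * ((b.re * b.re + b.im * b.im) * (r + s)
      + 2 * (b.re * (a.re - c.re) + b.im * (a.im - c.im))) = 0 := by linear_combination h1
  have e2 : (r - t) * ((b.re * b.re + b.im * b.im) * (r + t)
      + 2 * (b.re * (a.re - c.re) + b.im * (a.im - c.im))) = 0 := by linear_combination h2
  have f1 := (mul_eq_zero.mp e1).resolve_left hrs
  have f2 := (mul_eq_zero.mp e2).resolve_left hrt
  have f3 : (b.re * b.re + b.im * b.im) * (s - t) = 0 := by linear_combination f1 - f2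
  exact (mul_ne_zero hB hst) f3

lemma rot_prime {P : Set ℂ} {L : Set (Set ℂ)} (h : IsConfig P L) {g : ℂ → ℂ} {c a : ℂ}
    (hg : ∀ z, g z = c + a * (z - c)) (hP : ∀ p ∈ P, g p ∈ P) (hL : ∀ l ∈ L, g '' l ∈ L)
    {q : ℕ} (hq : q.Prime) (ha : orderOf a = q) : c ∉ P ∧ (q = 3 ∨ q = 7) := by
  have hPf : P.Finite := Set.finite_of_ncard_ne_zero (by rw [h.card_points]; norm_num)
  have hLf : L.Finite := Set.finite_of_ncard_ne_zero (by rw [h.card_lines]; norm_num)
  have haq : a ^ q = 1 := by rw [← ha]; exact pow_orderOf_eq_one a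
  have ha1 : a ≠ 1 := by
    rintro rfl
    rw [orderOf_one] at ha
    exact hq.one_lt.ne ha
  have hit : ∀ z, g^[q] z = z := by
    intro z; rw [rot_iterate hg, haq]; ring
  have hfixP : ∀ z, g z = z ↔ z = c := by
    intro z
    rw [hg]
    constructor
    · intro hz
      have : (a - 1) * (z - c) = 0 := by linear_combination hz
      rcases mul_eq_zero.mp this with h1 | h1
      · exact absurd (sub_eq_zero.mp h1) ha1
      · exact sub_eq_zero.mp h1
    · rintro rfl; ring
  have keyP := modEq_fixed P hPf g hP q hq (fun x _ => hit x)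
  rw [h.card_points] at keyP
  by_cases hc : c ∈ P
  · exfalso
    have h1 : {x | x ∈ P ∧ g x = x} = {c} := by
      ext x
      simp only [Set.mem_ofPred_eq, Set.mem_singleton_iff, hfixP]
      exact ⟨fun hx => hx.2, fun hx => ⟨hx ▸ hc, hx⟩⟩
    rw [h1, Set.ncard_singleton] at keyP
    have hq20 : q ∣ 20 := by
      have := (Nat.modEq_iff_dvd' (by norm_num : 1 ≤ 21)).mp keyP.symm
      simpa using this
    have hq25 : q = 2 ∨ q = 5 := by
      have : q ∣ 2 ^ 2 * 5 := by simpa using hq20
      rcases (Nat.Prime.dvd_mul hq).mp this with h2 | h2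
      · left; exact (Nat.prime_dvd_prime_iff_eq hq Nat.prime_two).mp (hq.dvd_of_dvd_pow h2)
      · right; exact (Nat.prime_dvd_prime_iff_eq hq Nat.prime_five).mp h2
    have hitL : ∀ l, (fun l : Set ℂ => g '' l)^[q] l = l := by
      intro l
      have : ∀ n : ℕ, ∀ l : Set ℂ, (fun l : Set ℂ => g '' l)^[n] l = g^[n] '' l := by
        intro n
        induction n with
        | zero => intro l; simp
        | succ n ih =>
          intro l
          rw [Function.iterate_succ_apply, ih, Function.iterate_succ, Set.image_comp]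
      rw [this]
      have h3 : g^[q] = id := funext hit
      rw [h3, Set.image_id]
    have hgfun : g = fun z => c + a * (z - c) := funext hg
    rcases hq25 with rfl | rfl
    · have ham : a = -1 := by
        have : (a - 1) * (a + 1) = 0 := by linear_combination haq
        rcases mul_eq_zero.mp this with h1 | h1
        · exact absurd (sub_eq_zero.mp h1) ha1
        · linear_combination h1
      have keyL := modEq_fixed L hLf (fun l => g '' l) hL 2 hq (fun x _ => hitL x)
      have h2 : {l | l ∈ L ∧ g '' l = l} = {l | l ∈ L ∧ c ∈ l} := by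
        ext l
        constructor
        · rintro ⟨hl, hfl⟩
          refine ⟨hl, ?_⟩
          rw [hgfun, ham] at hfl
          exact (half_turn (h.line l hl)).mp hfl
        · rintro ⟨hl, hfl⟩
          refine ⟨hl, ?_⟩
          rw [hgfun, ham]
          exact (half_turn (h.line l hl)).mpr hfl
      rw [h2, h.four_lines c hc, h.card_lines] at keyL
      exact absurd keyL (by decide)
    · have keyL := modEq_fixed {l | l ∈ L ∧ c ∈ l} (hLf.subset (fun l hl => hl.1))
        (fun l => g '' l) (fun l hl => ⟨hL l hl.1, ⟨c, hl.2, (hfixP c).mpr rfl⟩⟩) 5 hq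
        (fun x _ => hitL x)
      have h2 : {l | l ∈ {l | l ∈ L ∧ c ∈ l} ∧ g '' l = l} = ∅ := by
        ext l
        simp only [Set.mem_ofPred_eq, Set.mem_empty_iff_false, iff_false]
        rintro ⟨⟨hl, _⟩, hfl⟩
        rw [hgfun] at hfl
        obtain ⟨r, hr⟩ := rot_real (h.line l hl) hfl
        have h5 : r ^ 5 = 1 := by
          have : ((r ^ 5 : ℝ) : ℂ) = 1 := by push_cast; rw [← hr]; exact haq
          exact_mod_cast this
        have h6 : r = 1 := by
          have hm : StrictMono (fun x : ℝ => x ^ 5) := Odd.strictMono_pow (by decide)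
          apply hm.injective
          simpa using h5
        apply ha1
        rw [hr, h6]; simp
      rw [h2, Set.ncard_empty, h.four_lines c hc] at keyL
      exact absurd keyL (by decide)
  · refine ⟨hc, ?_⟩
    have h1 : {x | x ∈ P ∧ g x = x} = ∅ := by
      ext x
      simp only [Set.mem_ofPred_eq, Set.mem_empty_iff_false, iff_false, hfixP]
      rintro ⟨hx, rfl⟩
      exact hc hx
    rw [h1, Set.ncard_empty] at keyP
    have hq21 : q ∣ 3 * 7 := by
      have := (Nat.modEq_zero_iff_dvd).mp keyP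
      simpa using this
    rcases (Nat.Prime.dvd_mul hq).mp hq21 with h2 | h2
    · left; exact (Nat.prime_dvd_prime_iff_eq hq Nat.prime_three).mp h2
    · right; exact (Nat.prime_dvd_prime_iff_eq hq (by norm_num)).mp h2

end Pool.Agent.H33G
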