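import Mathlib
import Pool.Agent.H33G.Orb

namespace Pool.Agent.H33G

open Complex

/-- the two incidences of a pair of orbits determine the product -/
lemma val_of {x p : Fin 3 → ℂ} {i j : Fin 3} {a D : ZMod 7} (hD : D ≠ 0)
    (hInc : ∀ m, Inc x p i j m ↔ (m = a + D ∨ m = a - D)) :
    om a * (x i * (starRingEnd ℂ) (p j)) = (((C D)⁻¹ : ℝ) : ℂ) := by
  have h7 : (7 : ZMod 7) = 0 := by decide
  have hne : a + D ≠ a - D := by
    intro h0
    apply hD
    linear_combination 4 * h0 - D * h7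
  obtain ⟨h, d, hd, e⟩ := dbl_of_two (w := x i * (starRingEnd ℂ) (p j)) hne
    ((hInc (a + D)).mpr (Or.inl rfl)) ((hInc (a - D)).mpr (Or.inr rfl))
  have k1 := (hInc (h + d)).mp ((inc_iff e (h + d)).mpr (Or.inl rfl))
  have k2 := (hInc (h - d)).mp ((inc_iff e (h - d)).mpr (Or.inr rfl))
  rcases k1 with k1 | k1 <;> rcases k2 with k2 | k2
  · exact absurd (by linear_combination 4 * k1 - 4 * k2 - d * h7 : d = 0) hd
  · have h1 : h = a := by linear_combination 4 * k1 + 4 * k2 - (h - a) * h7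
    have h2 : d = D := by linear_combination k1 - h1
    rw [h1, h2] at e
    exact e
  · have h1 : h = a := by linear_combination 4 * k1 + 4 * k2 - (h - a) * h7
    have h2 : d = -D := by linear_combination k1 - h1
    rw [h1, h2, C_neg] at e
    exact e
  · exact absurd (by linear_combination 4 * k1 - 4 * k2 - d * h7 : d = 0) hd

lemma om_exp (k : ZMod 7) : om k = exp (2 * Real.pi * I * k.val / 7) := by
  unfold om xi
  rw [← Complex.exp_nat_mul]
  congr 1
  push_cast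
  ring

lemma C_cos (k : ZMod 7) : C k = Real.cos (2 * Real.pi * k.val / 7) := by
  unfold C
  rw [om_exp]
  rw [show (2 * (Real.pi : ℂ) * I * (k.val : ℂ) / 7)
    = ((2 * Real.pi * k.val / 7 : ℝ) : ℂ) * I by push_cast; ring]
  exact Complex.exp_ofReal_mul_I_re _

lemma ccc : (C 1 : ℂ) * C 2 * C 3 = 1 / 8 := by
  have := c123
  have h : ((C 1 * C 2 * C 3 : ℝ) : ℂ) = ((1 / 8 : ℝ) : ℂ) := by rw [this]
  push_cast at h
  exact h

/-- the moduli and the directions of the representatives -/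
lemma shape {Y R : Fin 3 → ℂ} (h : ∀ i j, i ≠ j → Y i * R j = (((C (dl i j))⁻¹ : ℝ) : ℂ)) :
    ∃ κ : ℂ, κ ≠ 0 ∧ Y 0 = κ * C 1 ∧ Y 1 = κ * C 2 ∧ Y 2 = κ * C 3 ∧ κ * R 0 = 8 * C 1 ∧
      κ * R 1 = 8 * C 2 ∧ κ * R 2 = 8 * C 3 := by
  have hc1 : (C 1 : ℂ) ≠ 0 := by exact_mod_cast C_ne 1
  have hc2 : (C 2 : ℂ) ≠ 0 := by exact_mod_cast C_ne 2
  have hc3 : (C 3 : ℂ) ≠ 0 := by exact_mod_cast C_ne 3
  have hc := ccc
  have h01 := h 0 1 (by decide)
  have h02 := h 0 2 (by decide)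
  have h10 := h 1 0 (by decide)
  have h12 := h 1 2 (by decide)
  have h20 := h 2 0 (by decide)
  have h21 := h 2 1 (by decide)
  rw [show dl 0 1 = 3 by decide] at h01
  rw [show dl 0 2 = 2 by decide] at h02
  rw [show dl 1 0 = 3 by decide] at h10
  rw [show dl 1 2 = 1 by decide] at h12
  rw [show dl 2 0 = 2 by decide] at h20
  rw [show dl 2 1 = 1 by decide] at h21
  push_cast at h01 h02 h10 h12 h20 h21
  have g01 : Y 0 * R 1 * C 3 = 1 := by rw [h01]; exact inv_mul_cancel₀ hc3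
  have g02 : Y 0 * R 2 * C 2 = 1 := by rw [h02]; exact inv_mul_cancel₀ hc2
  have g10 : Y 1 * R 0 * C 3 = 1 := by rw [h10]; exact inv_mul_cancel₀ hc3
  have g12 : Y 1 * R 2 * C 1 = 1 := by rw [h12]; exact inv_mul_cancel₀ hc1
  have g21 : Y 2 * R 1 * C 1 = 1 := by rw [h21]; exact inv_mul_cancel₀ hc1
  have hY0 : Y 0 ≠ 0 := by
    intro h0; rw [h0] at g01; simp at g01
  -- κ = Y 0 / C 1
  have e0 : Y 0 = Y 0 / C 1 * C 1 := (div_mul_cancel₀ _ hc1).symm
  set κ := Y 0 / C 1 with hκ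
  have hκ0 : κ ≠ 0 := div_ne_zero hY0 hc1
  have r1 : κ * R 1 = 8 * C 2 := by
    have : κ * C 1 * R 1 * C 3 = 1 := by rw [← e0]; exact g01
    have h2 : (κ * R 1 - 8 * C 2) * (C 1 * C 3) = 0 := by
      linear_combination this - 8 * hc
    have h3 := (mul_eq_zero.mp h2).resolve_right (mul_ne_zero hc1 hc3)
    linear_combination h3
  have r2 : κ * R 2 = 8 * C 3 := by
    have : κ * C 1 * R 2 * C 2 = 1 := by rw [← e0]; exact g02
    have h2 : (κ * R 2 - 8 * C 3) * (C 1 * C 2) = 0 := by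
      linear_combination this - 8 * hc
    have h3 := (mul_eq_zero.mp h2).resolve_right (mul_ne_zero hc1 hc2)
    linear_combination h3
  have y1 : Y 1 = κ * C 2 := by
    -- κ = κ * (Y 1 * R 2 * C 1) = Y 1 * 8 * C 3 * C 1
    have h1 : κ = Y 1 * (8 * C 3) * C 1 := by
      rw [← r2]; linear_combination (-κ) * g12
    have h2 : κ * C 2 = Y 1 * (8 * (C 1 * C 2 * C 3)) := by rw [h1]; ring
    rw [h2, hc]; ring
  have y2 : Y 2 = κ * C 3 := by
    have h1 : κ = Y 2 * (8 * C 2) * C 1 := by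
      rw [← r1]; linear_combination (-κ) * g21
    have h2 : κ * C 3 = Y 2 * (8 * (C 1 * C 2 * C 3)) := by rw [h1]; ring
    rw [h2, hc]; ring
  have r0 : κ * R 0 = 8 * C 1 := by
    have h1 : κ * C 2 * R 0 * C 3 = 1 := by rw [← y1]; exact g10
    have h2 : (κ * R 0 - 8 * C 1) * (C 2 * C 3) = 0 := by
      linear_combination h1 - 8 * hc
    have h3 := (mul_eq_zero.mp h2).resolve_right (mul_ne_zero hc2 hc3)
    linear_combination h3
  exact ⟨κ, hκ0, e0, y1, y2, r0, r1, r2⟩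

end Pool.Agent.H33G
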